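import Pool.Agent.H408R2.EHLow.Step

open Finset

namespace Pool.Agent.H408R2.EHLow

open Pool.Agent.Helper112

variable {N R R0 : ℕ} {L s : ℝ}

noncomputable def ind (q : ℕ) (k : ℤ) : ℝ := if k ≠ 0 ∧ (q:ℤ) ∣ k then 1 else 0

lemma ind_nonneg (q : ℕ) (k : ℤ) : 0 ≤ ind q k := by unfold ind; split_ifs <;> norm_num

lemma ind_sq (q : ℕ) (k : ℤ) : ind q k ^ 2 = ind q k := by unfold ind; split_ifs <;> norm_num

lemma ind_mul (q : ℕ) (k : ℤ) : ind q k * ind q k = ind q k := by rw [← pow_two, ind_sq]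

lemma ind_sum (N q : ℕ) (hq : 1 ≤ q) :
    ∑ k ∈ Icc (-((2 * N : ℕ):ℤ)) ((2 * N : ℕ):ℤ), ind q k ≤ 4 * N / q := by
  have hq0 : (0:ℝ) < q := by exact_mod_cast hq
  rw [sum_Icc_int_real]
  have h0 : ind q 0 = 0 := by unfold ind; simp
  have h1 : ∀ i ∈ Icc 1 (2 * N), (ind q (i:ℤ) + ind q (-(i:ℤ))) = 2 * (if q ∣ i then 1 else 0) := by
    intro i hi
    rw [mem_Icc] at hi
    have hi0 : (i:ℤ) ≠ 0 := by omega
    unfold ind
    simp only [ne_eq, hi0, not_false_eq_true, neg_eq_zero, true_and, dvd_neg, Int.natCast_dvd_natCast]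
    split_ifs <;> norm_num
  rw [h0, sum_congr rfl h1, ← mul_sum, sum_dvd (2 * N) q hq (fun _ => (1:ℝ))]
  simp only [sum_const, Nat.card_Icc, add_tsub_cancel_right, nsmul_eq_mul, mul_one, zero_add]
  have h2 : ((2 * N / q : ℕ) : ℝ) ≤ ((2 * N : ℕ) : ℝ) / q := Nat.cast_div_le
  push_cast at h2
  calc 2 * ((2 * N / q : ℕ) : ℝ) ≤ 2 * (2 * N / q) := by linarith
    _ = _ := by ring

lemma ind_tau (Q : Finset ℕ) (k : ℤ) (hk : k ≠ 0) :
    ∑ q ∈ Q, ind q k ≤ (k.natAbs.divisors.card : ℝ) := by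
  unfold ind
  rw [← sum_filter, sum_const, nsmul_eq_mul, mul_one]
  have : (Q.filter (fun q : ℕ => k ≠ 0 ∧ (q:ℤ) ∣ k)).card ≤ k.natAbs.divisors.card := by
    apply card_le_card
    intro q hq
    rw [mem_filter] at hq
    rw [Nat.mem_divisors]
    exact ⟨Int.natCast_dvd.mp hq.2.2, by simpa using hk⟩
  exact_mod_cast this

lemma t_sq (g : Good N R R0 L s) (Q : Finset ℕ) (hQ : ∀ q ∈ Q, 1 ≤ q) (σ : ℕ → ℝ)
    (hσ : ∀ q, |σ q| = 1) :
    ∑ k ∈ Icc (-((2 * N : ℕ):ℤ)) ((2 * N : ℕ):ℤ), (∑ q ∈ Q, (q:ℝ) * σ q * ind q k) ^ 2 ≤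
      4 * N * L * ∑ q ∈ Q, (q:ℝ) := by
  have hL := g.hL
  have hL0 : 0 < L := by linarith
  have h1 : ∀ k ∈ Icc (-((2 * N : ℕ):ℤ)) ((2 * N : ℕ):ℤ),
      (∑ q ∈ Q, (q:ℝ) * σ q * ind q k) ^ 2 ≤ L * ∑ q ∈ Q, (q:ℝ) ^ 2 * ind q k := by
    intro k hk
    by_cases hk0 : k = 0
    · subst hk0
      have : ∀ q, ind q 0 = 0 := by intro q; unfold ind; simp
      simp [this]
    · have h2 := Finset.sum_mul_sq_le_sq_mul_sq Q (fun q => (q:ℝ) * σ q * ind q k) (fun q => ind q k)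
      have e1 : ∀ q ∈ Q, (q:ℝ) * σ q * ind q k * ind q k = (q:ℝ) * σ q * ind q k := by
        intro q _; rw [mul_assoc, ind_mul]
      have e2 : ∀ q ∈ Q, ((q:ℝ) * σ q * ind q k) ^ 2 = (q:ℝ) ^ 2 * ind q k := by
        intro q _
        have : σ q ^ 2 = 1 := by rw [← sq_abs, hσ, one_pow]
        rw [mul_pow, mul_pow, this, ind_sq, mul_one]
      have e3 : ∀ q ∈ Q, ind q k ^ 2 = ind q k := fun q _ => ind_sq q k
      rw [sum_congr rfl e1, sum_congr rfl e2, sum_congr rfl e3] at h2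
      refine h2.trans ?_
      rw [mul_comm]
      apply mul_le_mul_of_nonneg_right _ (sum_nonneg fun q _ => mul_nonneg (by positivity) (ind_nonneg _ _))
      refine (ind_tau Q k hk0).trans ?_
      rw [mem_Icc] at hk
      apply g.f3
      · have := Int.natAbs_pos.mpr hk0; omega
      · omega
  refine (sum_le_sum h1).trans ?_
  rw [← mul_sum, sum_comm]
  have h3 : ∑ q ∈ Q, ∑ k ∈ Icc (-((2 * N : ℕ):ℤ)) ((2 * N : ℕ):ℤ), (q:ℝ) ^ 2 * ind q k ≤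
      ∑ q ∈ Q, 4 * N * (q:ℝ) := by
    apply sum_le_sum
    intro q hq
    have hq0 : (0:ℝ) < q := by exact_mod_cast hQ q hq
    rw [← mul_sum]
    calc (q:ℝ) ^ 2 * ∑ k ∈ Icc (-((2 * N : ℕ):ℤ)) ((2 * N : ℕ):ℤ), ind q k ≤ (q:ℝ) ^ 2 * (4 * N / q) :=
          mul_le_mul_of_nonneg_left (ind_sum N q (hQ q hq)) (by positivity)
      _ = 4 * N * q := by field_simp
  calc L * ∑ q ∈ Q, ∑ k ∈ Icc (-((2 * N : ℕ):ℤ)) ((2 * N : ℕ):ℤ), (q:ℝ) ^ 2 * ind q k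
      ≤ L * ∑ q ∈ Q, 4 * N * (q:ℝ) := mul_le_mul_of_nonneg_left h3 hL0.le
    _ = _ := by rw [← mul_sum]; ring

theorem agg (g : Good N R R0 L s) (Q : Finset ℕ) (hQ : ∀ q ∈ Q, 1 ≤ q)
    (hD : ∀ q ∈ Q, N / (2 * L ^ 2) ≤ |Dq (RR R0 R) N q|) :
    ∑ q ∈ Q, (q:ℝ) ≤ N * L ^ 10 := by
  classical
  have hL := g.hL
  have hL0 : 0 < L := by linarith
  have hs0 := g.hs0
  have hs := g.hs
  have hN0 : (0:ℝ) < N := by rw [← hs]; positivity
  set X : ℝ := ∑ q ∈ Q, (q:ℝ) with hX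
  have hX0 : 0 ≤ X := sum_nonneg fun _ _ => by positivity
  set σ : ℕ → ℝ := fun q => if 0 ≤ Dq (RR R0 R) N q then 1 else -1 with hσdef
  have hσ : ∀ q, |σ q| = 1 := by
    intro q; rw [hσdef]; beta_reduce; split_ifs <;> norm_num
  have hσD : ∀ q, σ q * Dq (RR R0 R) N q = |Dq (RR R0 R) N q| := by
    intro q
    rw [hσdef]
    beta_reduce
    split_ifs with h
    · rw [one_mul, abs_of_nonneg h]
    · rw [abs_of_neg (not_le.mp h)]; ring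
  have hb := D_bound N R R0 g.N1 g.hR01 (RR R0 R) (RR_prime R0 R) (RR_le R0 R) (RR_ge R0 R)
    (PP N) (PP_sub N) (fun k => ∑ q ∈ Q, (q:ℝ) * σ q * ind q k)
  have ht := t_sq g Q hQ σ hσ
  have hsum : ∑ p ∈ PP N, ∑ k ∈ Icc (-((2 * N : ℕ):ℤ)) ((2 * N : ℕ):ℤ),
      (∑ q ∈ Q, (q:ℝ) * σ q * ind q k) * c (RR R0 R) N (p + k) =
      ∑ q ∈ Q, (q:ℝ) * |Dq (RR R0 R) N q| := by
    have : ∀ q ∈ Q, (q:ℝ) * |Dq (RR R0 R) N q| = ∑ p ∈ PP N, ∑ k ∈ Icc (-((2 * N : ℕ):ℤ)) ((2 * N : ℕ):ℤ),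
        (q:ℝ) * σ q * ind q k * c (RR R0 R) N (p + k) := by
      intro q _
      rw [← hσD, ← mul_assoc]
      unfold Dq ind
      rw [mul_sum]
      apply sum_congr rfl
      intro p _
      rw [mul_sum]
      apply sum_congr rfl
      intro k _
      ring
    rw [sum_congr rfl this]
    symm
    rw [sum_comm]
    apply sum_congr rfl
    intro p _
    rw [sum_comm]
    apply sum_congr rfl
    intro k _
    rw [sum_mul]
  rw [hsum] at hb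
  have hlow : (N / (2 * L ^ 2)) * X ≤ ∑ q ∈ Q, (q:ℝ) * |Dq (RR R0 R) N q| := by
    rw [hX, mul_sum]
    apply sum_le_sum
    intro q hq
    rw [mul_comm]
    exact mul_le_mul_of_nonneg_left (hD q hq) (by positivity)
  have hlow0 : 0 ≤ (N / (2 * L ^ 2)) * X := by positivity
  have hR2 : (R:ℝ) ^ 2 ≤ N := by
    rw [← hs]
    exact pow_le_pow_left₀ (by positivity) g.hR 2
  have hP : ((PP N).card : ℝ) ≤ N := by
    have : (PP N).card ≤ N := by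
      refine (card_le_card (PP_sub N)).trans ?_
      simp
    exact_mod_cast this
  have hN1 : (1:ℝ) ≤ N := by exact_mod_cast g.N1
  have hup : Real.sqrt ((6 * (N + (R:ℝ) ^ 2) * (PP N).card) * (6 * ((4 * N + 1 : ℕ) + (R:ℝ) ^ 2) *
        ∑ k ∈ Icc (-((2 * N : ℕ):ℤ)) ((2 * N : ℕ):ℤ), (∑ q ∈ Q, (q:ℝ) * σ q * ind q k) ^ 2)) ≤
        42 * N ^ 2 * Real.sqrt (L * X) := by
    have e : 42 * (N:ℝ) ^ 2 * Real.sqrt (L * X) = Real.sqrt ((42 * N ^ 2) ^ 2 * (L * X)) := by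
      rw [Real.sqrt_mul (by positivity : 0 ≤ (42 * (N:ℝ) ^ 2) ^ 2), Real.sqrt_sq (by positivity)]
    rw [e]
    apply Real.sqrt_le_sqrt
    have a1 : 6 * (N + (R:ℝ) ^ 2) * (PP N).card ≤ 12 * N * N := by
      apply mul_le_mul _ hP (by positivity) (by positivity)
      linarith
    have a2 : 6 * (((4 * N + 1 : ℕ):ℝ) + (R:ℝ) ^ 2) ≤ 36 * N := by
      push_cast
      linarith
    have a3 : 6 * (((4 * N + 1 : ℕ):ℝ) + (R:ℝ) ^ 2) *
        ∑ k ∈ Icc (-((2 * N : ℕ):ℤ)) ((2 * N : ℕ):ℤ), (∑ q ∈ Q, (q:ℝ) * σ q * ind q k) ^ 2 ≤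
        36 * N * (4 * N * L * X) :=
      mul_le_mul a2 ht (sum_nonneg fun _ _ => sq_nonneg _) (by positivity)
    calc (6 * (N + (R:ℝ) ^ 2) * (PP N).card) * (6 * (((4 * N + 1 : ℕ):ℝ) + (R:ℝ) ^ 2) *
        ∑ k ∈ Icc (-((2 * N : ℕ):ℤ)) ((2 * N : ℕ):ℤ), (∑ q ∈ Q, (q:ℝ) * σ q * ind q k) ^ 2)
        ≤ (12 * N * N) * (36 * N * (4 * N * L * X)) := by
          apply mul_le_mul a1 a3 _ (by positivity)
          apply mul_nonneg (by positivity)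
          exact sum_nonneg fun _ _ => sq_nonneg _
      _ = 1728 * N ^ 4 * (L * X) := by ring
      _ ≤ 1764 * N ^ 4 * (L * X) := by
          have : 0 ≤ (N:ℝ) ^ 4 * (L * X) := by positivity
          linarith
      _ = _ := by ring
  have h1 : (s / (2 * L)) * ((N / (2 * L ^ 2)) * X) ≤ 42 * N ^ 2 * Real.sqrt (L * X) := by
    refine le_trans ?_ (hb.trans hup)
    rw [abs_of_nonneg (sum_nonneg fun _ _ => by positivity : 0 ≤ ∑ q ∈ Q, (q:ℝ) * |Dq (RR R0 R) N q|)]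
    exact mul_le_mul g.hR0 hlow hlow0 (by positivity)
  -- square it
  have h2 : s * X ≤ 168 * L ^ 3 * N * Real.sqrt (L * X) := by
    have e : (s / (2 * L)) * ((N / (2 * L ^ 2)) * X) = (s * X) * (N / (4 * L ^ 3)) := by
      field_simp; ring
    rw [e] at h1
    have e2 : 42 * N ^ 2 * Real.sqrt (L * X) = (168 * L ^ 3 * N * Real.sqrt (L * X)) * (N / (4 * L ^ 3)) := by
      field_simp; ring
    rw [e2] at h1
    exact le_of_mul_le_mul_right h1 (by positivity)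
  have h3 : (s * X) ^ 2 ≤ (168 * L ^ 3 * N * Real.sqrt (L * X)) ^ 2 :=
    pow_le_pow_left₀ (by positivity) h2 2
  rw [mul_pow, mul_pow, Real.sq_sqrt (by positivity), hs] at h3
  rcases hX0.eq_or_lt with h0 | h0
  · rw [← h0]; positivity
  · have h4 : X ≤ 28224 * L ^ 7 * N := by
      have e3 : (N:ℝ) * X ^ 2 = (N * X) * X := by ring
      have e4 : (168 * L ^ 3 * N) ^ 2 * (L * X) = (N * X) * (28224 * L ^ 7 * N) := by ring
      rw [e3, e4] at h3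
      exact le_of_mul_le_mul_left h3 (by positivity)
    have h5 : (28224:ℝ) ≤ L ^ 3 := by
      calc (28224:ℝ) ≤ 100 ^ 3 := by norm_num
        _ ≤ L ^ 3 := pow_le_pow_left₀ (by norm_num) hL 3
    calc X ≤ 28224 * L ^ 7 * N := h4
      _ ≤ L ^ 3 * L ^ 7 * N := by gcongr
      _ = _ := by ring

/-- all exceptional moduli -/
theorem all_except (g : Good N R R0 L s) (Q : Finset ℕ) (hQ : ∀ q ∈ Q, 1 ≤ q ∧ q ≤ N)
    (hV : ∀ q ∈ Q, ∀ _ : NeZero q, Vr N q ≤ N / L ^ 10) :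
    ∑ q ∈ Q, (q:ℝ) ≤ N * L ^ 17 := by
  classical
  have hL := g.hL
  have hL0 : 0 < L := by linarith
  have hs0 := g.hs0
  have hs := g.hs
  have hN0 : (0:ℝ) < N := by rw [← hs]; positivity
  rw [← sum_filter_add_sum_filter_not Q (fun q : ℕ => s * L ^ 8 ≤ (q:ℝ))]
  have h1 : ∑ q ∈ Q.filter (fun q : ℕ => s * L ^ 8 ≤ (q:ℝ)), (q:ℝ) ≤ N * L ^ 10 := by
    apply agg g _ (fun q hq => (hQ q (mem_filter.mp hq).1).1)
    intro q hq
    rw [mem_filter] at hq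
    have hq1 := hQ q hq.1
    have : NeZero q := ⟨by omega⟩
    exact g.D_ge q hq1.2 hq.2 (hV q hq.1 this)
  have h2 : ∑ q ∈ Q.filter (fun q : ℕ => ¬ s * L ^ 8 ≤ (q:ℝ)), (q:ℝ) ≤ N * L ^ 16 := by
    have hcard : ((Q.filter (fun q : ℕ => ¬ s * L ^ 8 ≤ (q:ℝ))).card : ℝ) ≤ s * L ^ 8 := by
      have h3 : (Q.filter (fun q : ℕ => ¬ s * L ^ 8 ≤ (q:ℝ))) ⊆ Icc 1 ⌊s * L ^ 8⌋₊ := by
        intro q hq
        rw [mem_filter] at hq
        rw [mem_Icc]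
        exact ⟨(hQ q hq.1).1, Nat.le_floor (not_le.mp hq.2).le⟩
      have h4 := card_le_card h3
      rw [Nat.card_Icc, add_tsub_cancel_right] at h4
      calc ((Q.filter (fun q : ℕ => ¬ s * L ^ 8 ≤ (q:ℝ))).card : ℝ) ≤ (⌊s * L ^ 8⌋₊ : ℝ) := by exact_mod_cast h4
        _ ≤ _ := Nat.floor_le (by positivity)
    calc ∑ q ∈ Q.filter (fun q : ℕ => ¬ s * L ^ 8 ≤ (q:ℝ)), (q:ℝ)
        ≤ ∑ q ∈ Q.filter (fun q : ℕ => ¬ s * L ^ 8 ≤ (q:ℝ)), s * L ^ 8 := by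
          apply sum_le_sum
          intro q hq
          exact (not_le.mp (mem_filter.mp hq).2).le
      _ = ((Q.filter (fun q : ℕ => ¬ s * L ^ 8 ≤ (q:ℝ))).card : ℝ) * (s * L ^ 8) := by
          rw [sum_const, nsmul_eq_mul]
      _ ≤ (s * L ^ 8) * (s * L ^ 8) := mul_le_mul_of_nonneg_right hcard (by positivity)
      _ = s ^ 2 * L ^ 16 := by ring
      _ = _ := by rw [hs]
  have h3 : (N:ℝ) * L ^ 10 + N * L ^ 16 ≤ N * L ^ 17 := by
    have h4 : L ^ 10 ≤ L ^ 16 := pow_le_pow_right₀ (by linarith) (by norm_num)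
    have h5 : 0 < L ^ 16 := by positivity
    have h6 : L ^ 10 + L ^ 16 ≤ L ^ 17 := by
      calc L ^ 10 + L ^ 16 ≤ L ^ 16 + L ^ 16 := by linarith
        _ = 2 * L ^ 16 := by ring
        _ ≤ L * L ^ 16 := by nlinarith
        _ = L ^ 17 := by ring
    nlinarith
  linarith

end Pool.Agent.H408R2.EHLow
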