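import Pool.Agent.Helper112.LS
import Pool.Agent.Helper112.Arith

open Finset

namespace Pool.Agent.H408R2.EHLow

open Pool.Agent.Helper112

/-- triangle weight -/
noncomputable def w (N : ℕ) (n : ℤ) : ℝ := max 0 (1 - |(n:ℝ)| / N)

lemma w_nonneg (N : ℕ) (n : ℤ) : 0 ≤ w N n := le_max_left _ _

lemma w_le_one (N : ℕ) (n : ℤ) : w N n ≤ 1 := by
  unfold w
  apply max_le (by norm_num)
  have : 0 ≤ |(n:ℝ)| / N := by positivity
  linarith

lemma w_eq (N : ℕ) (hN : 1 ≤ N) (n : ℤ) (h : n ∈ Icc (-(N:ℤ)) N) :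
    w N n = ((N:ℝ) - |(n:ℝ)|) / N := by
  have hN0 : (0:ℝ) < N := by exact_mod_cast hN
  rw [mem_Icc] at h
  have h1 : |(n:ℝ)| ≤ N := by
    rw [abs_le]
    constructor
    · exact_mod_cast h.1
    · exact_mod_cast h.2
  unfold w
  rw [max_eq_right]
  · field_simp
  · rw [sub_nonneg, div_le_one hN0]; exact h1

lemma w_out (N : ℕ) (hN : 1 ≤ N) (n : ℤ) (h : (N:ℤ) ≤ |n|) : w N n = 0 := by
  have hN0 : (0:ℝ) < N := by exact_mod_cast hN
  unfold w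
  rw [max_eq_left]
  rw [sub_nonpos, le_div_iff₀ hN0, one_mul]
  exact_mod_cast h

lemma orth (M : ℕ) (hM : 1 ≤ M) (m : ℤ) :
    ∑ j ∈ range M, ee ((m:ℝ) * (j / M)) = if (M:ℤ) ∣ m then (M:ℂ) else 0 := by
  have hM0 : (M:ℝ) ≠ 0 := by positivity
  have hz : ∀ j : ℕ, ee ((m:ℝ) * (j / M)) = ee ((m:ℝ) / M) ^ j := by
    intro j
    rw [← ls_ee_nat_mul]
    congr 1
    field_simp
  rw [sum_congr rfl (fun j _ => hz j)]
  split_ifs with h
  · obtain ⟨k, rfl⟩ := h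
    have : ee (((M * k : ℤ) : ℝ) / M) = 1 := by
      have : ((M * k : ℤ) : ℝ) / M = (k:ℝ) := by push_cast; field_simp
      rw [this, ls_ee_int]
    rw [sum_congr rfl (fun j _ => by rw [this, one_pow])]
    simp
  · have hne : ee ((m:ℝ) / M) ≠ 1 := by
      intro h1
      obtain ⟨n, hn⟩ := ls_ee_eq_one h1
      apply h
      refine ⟨n, ?_⟩
      rw [div_eq_iff hM0] at hn
      have : (m:ℝ) = ((M * n : ℤ) : ℝ) := by push_cast; rw [hn]; ring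
      exact_mod_cast this
    rw [geom_sum_eq hne]
    have : ee ((m:ℝ) / M) ^ M = 1 := by
      rw [← ls_ee_nat_mul]
      have : (M:ℝ) * ((m:ℝ) / M) = (m:ℝ) := by field_simp
      rw [this, ls_ee_int]
    rw [this]
    simp

noncomputable def Dk (N : ℕ) (β : ℝ) : ℂ := ∑ j ∈ Icc 1 N, ee ((j:ℝ) * β)

lemma Icc_succ_sum (N : ℕ) (f : ℤ → ℂ) :
    ∑ n ∈ Icc (-((N+1:ℕ):ℤ)) ((N+1:ℕ):ℤ), f n =
      ∑ n ∈ Icc (-(N:ℤ)) N, f n + f (N+1) + f (-(N+1:ℤ)) := by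
  have h : Icc (-((N+1:ℕ):ℤ)) ((N+1:ℕ):ℤ) =
      insert (-(N+1:ℤ)) (insert ((N:ℤ)+1) (Icc (-(N:ℤ)) N)) := by
    ext x
    simp only [mem_Icc, mem_insert]
    push_cast
    omega
  rw [h, sum_insert, sum_insert]
  · ring
  · simp only [mem_Icc]; omega
  · simp only [mem_insert, mem_Icc]; omega

lemma sum_Icc_int (N : ℕ) (f : ℤ → ℂ) :
    ∑ n ∈ Icc (-(N:ℤ)) N, f n = f 0 + ∑ i ∈ Icc 1 N, (f i + f (-(i:ℤ))) := by
  induction N with
  | zero => simp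
  | succ N ih =>
    rw [Icc_succ_sum, ih, Finset.sum_Icc_succ_top (by omega)]
    push_cast
    ring

lemma fejer_aux (N : ℕ) (f : ℤ → ℂ) :
    ∑ i ∈ Icc 1 N, ∑ j ∈ Icc 1 N, f ((i:ℤ) - j) =
      ∑ n ∈ Icc (-(N:ℤ)) N, ((N:ℂ) - ((|n| : ℤ) : ℂ)) * f n := by
  induction N with
  | zero => simp
  | succ N ih =>
    have h1 : ∑ i ∈ Icc 1 (N+1), ∑ j ∈ Icc 1 (N+1), f ((i:ℤ) - j) =
        ∑ i ∈ Icc 1 N, ∑ j ∈ Icc 1 N, f ((i:ℤ) - j) +
        (∑ i ∈ Icc 1 N, f ((i:ℤ) - (N+1)) + ∑ j ∈ Icc 1 N, f ((N+1:ℤ) - j) + f 0) := by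
      rw [Finset.sum_Icc_succ_top (by omega)]
      have : ∀ i ∈ Icc 1 N, ∑ j ∈ Icc 1 (N+1), f ((i:ℤ) - j) =
          ∑ j ∈ Icc 1 N, f ((i:ℤ) - j) + f ((i:ℤ) - (N+1)) := by
        intro i _
        rw [Finset.sum_Icc_succ_top (by omega)]
        push_cast
        rfl
      rw [sum_congr rfl this, sum_add_distrib, Finset.sum_Icc_succ_top (by omega)]
      push_cast
      rw [sub_self]
      ring
    have h2 : ∑ i ∈ Icc 1 N, f ((i:ℤ) - (N+1)) = ∑ i ∈ Icc 1 N, f (-(i:ℤ)) := by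
      apply sum_bij' (fun i _ => N + 1 - i) (fun i _ => N + 1 - i)
      · intro i hi; rw [mem_Icc] at hi ⊢; omega
      · intro i hi; rw [mem_Icc] at hi ⊢; omega
      · intro i hi; rw [mem_Icc] at hi; omega
      · intro i hi; rw [mem_Icc] at hi; omega
      · intro i hi
        rw [mem_Icc] at hi
        congr 1
        push_cast [Nat.cast_sub (show i ≤ N + 1 by omega)]
        ring
    have h3 : ∑ i ∈ Icc 1 N, f ((N+1:ℤ) - i) = ∑ i ∈ Icc 1 N, f (i:ℤ) := by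
      apply sum_bij' (fun i _ => N + 1 - i) (fun i _ => N + 1 - i)
      · intro i hi; rw [mem_Icc] at hi ⊢; omega
      · intro i hi; rw [mem_Icc] at hi ⊢; omega
      · intro i hi; rw [mem_Icc] at hi; omega
      · intro i hi; rw [mem_Icc] at hi; omega
      · intro i hi
        rw [mem_Icc] at hi
        congr 1
        push_cast [Nat.cast_sub (show i ≤ N + 1 by omega)]
        ring
    rw [h1, ih, h2, h3, Icc_succ_sum]
    have h4 : ∑ i ∈ Icc 1 N, f (-(i:ℤ)) + ∑ i ∈ Icc 1 N, f (i:ℤ) + f 0 =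
        ∑ n ∈ Icc (-(N:ℤ)) N, f n := by
      rw [sum_Icc_int, ← sum_add_distrib]
      rw [add_comm]
      congr 1
      apply sum_congr rfl
      intro i _
      ring
    rw [h4, ← sum_add_distrib]
    have h5 : (((N+1:ℕ):ℂ) - ((|(N:ℤ)+1| : ℤ) : ℂ)) = 0 := by
      have : |(N:ℤ)+1| = (N:ℤ)+1 := abs_of_nonneg (by positivity)
      rw [this]; push_cast; ring
    have h6 : (((N+1:ℕ):ℂ) - ((|-((N:ℤ)+1)| : ℤ) : ℂ)) = 0 := by
      rw [abs_neg]; exact h5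
    rw [h5, h6]
    simp only [zero_mul, add_zero]
    apply sum_congr rfl
    intro n _
    push_cast
    ring

/-- Fejer kernel -/
noncomputable def F (N : ℕ) (β : ℝ) : ℝ := ‖Dk N β‖ ^ 2 / N

lemma F_nonneg (N : ℕ) (β : ℝ) : 0 ≤ F N β := by unfold F; positivity

lemma fejer (N : ℕ) (hN : 1 ≤ N) (β : ℝ) :
    ∑ n ∈ Icc (-(N:ℤ)) N, (w N n : ℂ) * ee ((n:ℝ) * β) = (F N β : ℂ) := by
  have hN0 : (N:ℂ) ≠ 0 := by
    have : N ≠ 0 := by omega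
    exact_mod_cast this
  have h1 : ((‖Dk N β‖ ^ 2 : ℝ) : ℂ) =
      ∑ n ∈ Icc (-(N:ℤ)) N, ((N:ℂ) - ((|n| : ℤ) : ℂ)) * ee ((n:ℝ) * β) := by
    rw [← fejer_aux N (fun n => ee ((n:ℝ) * β))]
    push_cast
    rw [← Complex.mul_conj']
    unfold Dk
    rw [map_sum, sum_mul_sum]
    apply sum_congr rfl
    intro i _
    apply sum_congr rfl
    intro j _
    rw [ls_conj_ee, ← ls_ee_add]
    congr 1
    push_cast
    ring
  unfold F
  push_cast at h1 ⊢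
  rw [h1, sum_div]
  apply sum_congr rfl
  intro n hn
  rw [w_eq N hN n hn]
  have h7 : ((|n| : ℤ) : ℂ) = ((|(n:ℝ)| : ℝ) : ℂ) := by
    have h8 : |(n:ℝ)| = ((|n| : ℤ) : ℝ) := (Int.cast_abs (R := ℝ)).symm
    rw [h8, Complex.ofReal_intCast]
  rw [h7]
  push_cast
  ring

/-- reduced residues -/
def cop (r : ℕ) : Finset ℕ := (range r).filter (fun a => a.Coprime r)

lemma ram (r : ℕ) (hr : r.Prime) (n : ℤ) :
    ∑ a ∈ cop r, ee ((n:ℝ) * (a / r)) = (if (r:ℤ) ∣ n then (r:ℂ) else 0) - 1 := by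
  have h : range r = insert 0 (cop r) := by
    ext a
    simp only [cop, mem_range, mem_insert, mem_filter]
    constructor
    · intro ha
      rcases Nat.eq_zero_or_pos a with h0 | h0
      · left; exact h0
      · right
        refine ⟨ha, ?_⟩
        exact (Nat.coprime_of_lt_prime (by omega) ha hr).symm
    · rintro (h0 | h0)
      · subst h0; exact hr.pos
      · exact h0.1
  have h0 : 0 ∉ cop r := by
    simp only [cop, mem_filter, mem_range, Nat.coprime_zero_left, not_and]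
    intro _
    exact hr.one_lt.ne'
  have h1 := orth r hr.one_lt.le n
  rw [h, sum_insert h0] at h1
  rw [← h1]
  simp [ls_ee_zero]

/-- the test function's arithmetic part -/
noncomputable def A (Rs : Finset ℕ) (n : ℤ) : ℝ :=
  ∑ r ∈ Rs, ((1:ℝ) / r - if (r:ℤ) ∣ n then 1 else 0)

noncomputable def c (Rs : Finset ℕ) (N : ℕ) (n : ℤ) : ℝ := w N n * A Rs n

lemma A_eq (Rs : Finset ℕ) (hRs : ∀ r ∈ Rs, r.Prime) (n : ℤ) :
    (A Rs n : ℂ) = - ∑ r ∈ Rs, ∑ a ∈ cop r, (1 / (r:ℂ)) * ee ((n:ℝ) * (a / r)) := by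
  unfold A
  push_cast
  rw [← sum_neg_distrib]
  apply sum_congr rfl
  intro r hr
  rw [← mul_sum, ram r (hRs r hr) n]
  have : (r:ℂ) ≠ 0 := by exact_mod_cast (hRs r hr).ne_zero
  split_ifs with h
  · push_cast; field_simp; ring
  · push_cast; field_simp; ring

noncomputable def H (Rs : Finset ℕ) (N : ℕ) (β : ℝ) : ℝ :=
  ∑ r ∈ Rs, ∑ a ∈ cop r, (1 / (r:ℝ)) * F N (a / r + β)

lemma H_nonneg (Rs : Finset ℕ) (N : ℕ) (β : ℝ) : 0 ≤ H Rs N β := by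
  unfold H
  apply sum_nonneg
  intro r _
  apply sum_nonneg
  intro a _
  exact mul_nonneg (by positivity) (F_nonneg _ _)

lemma chat (Rs : Finset ℕ) (hRs : ∀ r ∈ Rs, r.Prime) (N : ℕ) (hN : 1 ≤ N) (β : ℝ) :
    ∑ n ∈ Icc (-(N:ℤ)) N, (c Rs N n : ℂ) * ee ((n:ℝ) * β) = -(H Rs N β : ℂ) := by
  unfold c H
  push_cast
  have : ∀ n ∈ Icc (-(N:ℤ)) N, (w N n : ℂ) * (A Rs n : ℂ) * ee ((n:ℝ) * β) =
      - ∑ r ∈ Rs, ∑ a ∈ cop r, (1 / (r:ℂ)) * ((w N n : ℂ) * ee ((n:ℝ) * (a / r + β))) := by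
    intro n _
    rw [A_eq Rs hRs, mul_neg, neg_mul, mul_sum, sum_mul]
    congr 1
    apply sum_congr rfl
    intro r _
    rw [mul_sum, sum_mul]
    apply sum_congr rfl
    intro a _
    rw [mul_add, ls_ee_add]
    ring
  rw [sum_congr rfl this, sum_neg_distrib]
  congr 1
  rw [sum_comm]
  apply sum_congr rfl
  intro r _
  rw [sum_comm]
  apply sum_congr rfl
  intro a _
  rw [← mul_sum, fejer N hN]

lemma large_sieve_shift (N R : ℕ) (Rs : Finset ℕ) (hRs : ∀ r ∈ Rs, r.Prime) (hR : ∀ r ∈ Rs, r ≤ R)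
    (α : ℕ → ℂ) (β : ℝ) :
    ∑ r ∈ Rs, ∑ a ∈ cop r, ‖∑ n ∈ Icc 1 N, α n * ee ((n:ℝ) * (a / r + β))‖ ^ 2 ≤
      6 * (N + (R:ℝ) ^ 2) * ∑ n ∈ Icc 1 N, ‖α n‖ ^ 2 := by
  have h := additive_large_sieve N R (fun n => α n * ee ((n:ℝ) * β))
  have h1 : ∑ n ∈ Icc 1 N, ‖α n * ee ((n:ℝ) * β)‖ ^ 2 = ∑ n ∈ Icc 1 N, ‖α n‖ ^ 2 := by
    apply sum_congr rfl
    intro n _
    rw [norm_mul, ls_norm_ee, mul_one]
  rw [h1] at h
  refine le_trans ?_ h
  have hsub : Rs ⊆ Icc 1 R := by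
    intro r hr
    rw [mem_Icc]
    exact ⟨(hRs r hr).one_lt.le, hR r hr⟩
  refine le_trans (le_of_eq ?_) (sum_le_sum_of_subset_of_nonneg hsub (fun r _ _ => by positivity))
  apply sum_congr rfl
  intro r _
  apply sum_congr rfl
  intro a _
  congr 2
  apply sum_congr rfl
  intro n _
  rw [mul_add, ls_ee_add, mul_div_assoc]
  ring

lemma H_le (N R R0 : ℕ) (hN : 1 ≤ N) (hR0 : 1 ≤ R0) (Rs : Finset ℕ) (hRs : ∀ r ∈ Rs, r.Prime)
    (hR : ∀ r ∈ Rs, r ≤ R) (hR0' : ∀ r ∈ Rs, R0 ≤ r) (β : ℝ) :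
    H Rs N β ≤ 6 * (N + (R:ℝ) ^ 2) / R0 := by
  have hN0 : (0:ℝ) < N := by exact_mod_cast hN
  have hR00 : (0:ℝ) < R0 := by exact_mod_cast hR0
  have h := large_sieve_shift N R Rs hRs hR (fun _ => 1) β
  simp only [one_mul, norm_one, one_pow, sum_const, Nat.card_Icc, add_tsub_cancel_right,
    nsmul_eq_mul, mul_one] at h
  unfold H F Dk
  calc ∑ r ∈ Rs, ∑ a ∈ cop r, (1 / (r:ℝ)) * (‖∑ j ∈ Icc 1 N, ee ((j:ℝ) * (a / r + β))‖ ^ 2 / N)
      ≤ ∑ r ∈ Rs, ∑ a ∈ cop r, (1 / (R0:ℝ)) * (‖∑ j ∈ Icc 1 N, ee ((j:ℝ) * (a / r + β))‖ ^ 2 / N) := by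
        apply sum_le_sum
        intro r hr
        apply sum_le_sum
        intro a _
        apply mul_le_mul_of_nonneg_right _ (by positivity)
        apply one_div_le_one_div_of_le hR00
        exact_mod_cast hR0' r hr
    _ = (1 / (R0:ℝ)) * ((∑ r ∈ Rs, ∑ a ∈ cop r, ‖∑ j ∈ Icc 1 N, ee ((j:ℝ) * (a / r + β))‖ ^ 2) / N) := by
        rw [sum_div, mul_sum]
        apply sum_congr rfl
        intro r _
        rw [sum_div, mul_sum]
    _ ≤ (1 / (R0:ℝ)) * ((6 * (N + (R:ℝ) ^ 2) * N) / N) := by gcongr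
    _ = _ := by field_simp

end Pool.Agent.H408R2.EHLow
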