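import Pool.Agent.H408R2.EHLow.Basic

open Finset

namespace Pool.Agent.H408R2.EHLow

open Pool.Agent.Helper112

lemma w_exp (N : ℕ) (hN : 1 ≤ N) (m : ℤ) (hm : |m| ≤ 3 * N) :
    ∑ j ∈ range (5 * N), (F N ((j:ℝ) / ((5 * N : ℕ):ℝ)) : ℂ) * ee (-((m:ℝ) * ((j:ℝ) / ((5 * N : ℕ):ℝ)))) =
      ((5 * N : ℕ) : ℂ) * (w N m : ℂ) := by
  have hM : 1 ≤ 5 * N := by omega
  have h1 : ∀ j ∈ range (5 * N),
      (F N ((j:ℝ) / ((5 * N : ℕ):ℝ)) : ℂ) * ee (-((m:ℝ) * ((j:ℝ) / ((5 * N : ℕ):ℝ)))) =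
      ∑ n ∈ Icc (-(N:ℤ)) N, (w N n : ℂ) * ee (((n - m : ℤ):ℝ) * ((j:ℝ) / ((5 * N : ℕ):ℝ))) := by
    intro j _
    rw [← fejer N hN, sum_mul]
    apply sum_congr rfl
    intro n _
    rw [mul_assoc, ← ls_ee_add]
    congr 2
    push_cast
    ring
  rw [sum_congr rfl h1, sum_comm]
  have h2 : ∀ n ∈ Icc (-(N:ℤ)) N,
      ∑ j ∈ range (5 * N), (w N n : ℂ) * ee (((n - m : ℤ):ℝ) * ((j:ℝ) / ((5 * N : ℕ):ℝ))) =
      if n = m then ((5 * N : ℕ) : ℂ) * (w N m : ℂ) else 0 := by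
    intro n hn
    rw [mem_Icc] at hn
    rw [← mul_sum, orth (5 * N) hM (n - m)]
    have hiff : (((5 * N : ℕ) : ℤ) ∣ n - m) ↔ n = m := by
      constructor
      · intro h
        have h3 : |n - m| < ((5 * N : ℕ) : ℤ) := by
          rw [abs_le] at hm
          rw [abs_lt]
          push_cast
          constructor <;> omega
        have := Int.eq_zero_of_abs_lt_dvd h h3
        omega
      · intro h
        subst h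
        simp
    by_cases h : n = m
    · rw [if_pos (hiff.mpr h), if_pos h, h]
      ring
    · rw [if_neg (fun h' => h (hiff.mp h')), if_neg h, mul_zero]
  rw [sum_congr rfl h2, sum_ite_eq']
  split_ifs with hmem
  · rfl
  · have : w N m = 0 := by
      apply w_out N hN
      rw [mem_Icc] at hmem
      rw [le_abs]
      by_contra hcon
      push Not at hcon
      apply hmem
      omega
    rw [this]
    simp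

lemma cs_sum {ι : Type*} (s : Finset ι) (f g : ι → ℂ) :
    (∑ i ∈ s, ‖f i‖ * ‖g i‖) ^ 2 ≤ (∑ i ∈ s, ‖f i‖ ^ 2) * ∑ i ∈ s, ‖g i‖ ^ 2 :=
  Finset.sum_mul_sq_le_sq_mul_sq s _ _

lemma ls_P (N R : ℕ) (Rs : Finset ℕ) (hRs : ∀ r ∈ Rs, r.Prime) (hR : ∀ r ∈ Rs, r ≤ R)
    (P : Finset ℕ) (hP : P ⊆ Icc 1 N) (β : ℝ) :
    ∑ r ∈ Rs, ∑ a ∈ cop r, ‖∑ p ∈ P, ee ((p:ℝ) * (a / r + β))‖ ^ 2 ≤
      6 * (N + (R:ℝ) ^ 2) * P.card := by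
  classical
  have h := large_sieve_shift N R Rs hRs hR (fun n => if n ∈ P then 1 else 0) β
  have h1 : ∑ n ∈ Icc 1 N, ‖(if n ∈ P then (1:ℂ) else 0)‖ ^ 2 = P.card := by
    have : ∀ n ∈ Icc 1 N, ‖(if n ∈ P then (1:ℂ) else 0)‖ ^ 2 = if n ∈ P then (1:ℝ) else 0 := by
      intro n _
      split_ifs <;> simp
    rw [sum_congr rfl this, ← sum_filter, sum_const, nsmul_eq_mul, mul_one]
    congr 2
    ext n
    simp only [mem_filter]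
    exact ⟨fun h => h.2, fun h => ⟨hP h, h⟩⟩
  rw [h1] at h
  refine le_trans (le_of_eq ?_) h
  apply sum_congr rfl
  intro r _
  apply sum_congr rfl
  intro a _
  congr 2
  have h2 : ∀ n ∈ Icc 1 N, (if n ∈ P then (1:ℂ) else 0) * ee ((n:ℝ) * (a / r + β)) =
      if n ∈ P then ee ((n:ℝ) * (a / r + β)) else 0 := by
    intro n _
    split_ifs <;> simp
  rw [sum_congr rfl h2, ← sum_filter]
  apply sum_congr _ (fun _ _ => rfl)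
  ext n
  simp only [mem_filter]
  exact ⟨fun h => ⟨hP h, h⟩, fun h => h.2⟩

lemma ls_K (N R : ℕ) (Rs : Finset ℕ) (hRs : ∀ r ∈ Rs, r.Prime) (hR : ∀ r ∈ Rs, r ≤ R)
    (t : ℤ → ℝ) (β : ℝ) :
    ∑ r ∈ Rs, ∑ a ∈ cop r, ‖∑ k ∈ Icc (-((2 * N : ℕ):ℤ)) ((2 * N : ℕ):ℤ), (t k : ℂ) * ee ((k:ℝ) * (a / r + β))‖ ^ 2 ≤
      6 * ((4 * N + 1 : ℕ) + (R:ℝ) ^ 2) * ∑ k ∈ Icc (-((2 * N : ℕ):ℤ)) ((2 * N : ℕ):ℤ), (t k) ^ 2 := by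
  have h := large_sieve_shift (4 * N + 1) R Rs hRs hR (fun n => (t ((n:ℤ) - (2 * N + 1)) : ℂ)) β
  have hre : ∀ (M : Type) [AddCommMonoid M] (f : ℤ → M),
      ∑ n ∈ Icc 1 (4 * N + 1), f ((n:ℤ) - (2 * N + 1)) =
      ∑ k ∈ Icc (-((2 * N : ℕ):ℤ)) ((2 * N : ℕ):ℤ), f k := by
    intro M _ f
    apply sum_bij (fun (n:ℕ) _ => (n:ℤ) - (2 * N + 1))
    · intro n hn
      rw [mem_Icc] at hn ⊢
      push_cast
      omega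
    · intro a _ b _ hab
      omega
    · intro k hk
      rw [mem_Icc] at hk
      push_cast at hk
      refine ⟨(k + (2 * N + 1)).toNat, ?_, ?_⟩
      · rw [mem_Icc]; omega
      · omega
    · intro n _; rfl
  have h1 : ∑ n ∈ Icc 1 (4 * N + 1), ‖(t ((n:ℤ) - (2 * N + 1)) : ℂ)‖ ^ 2 =
      ∑ k ∈ Icc (-((2 * N : ℕ):ℤ)) ((2 * N : ℕ):ℤ), (t k) ^ 2 := by
    rw [← hre ℝ (fun k => (t k) ^ 2)]
    apply sum_congr rfl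
    intro n _
    rw [Complex.norm_real, Real.norm_eq_abs, sq_abs]
  rw [h1] at h
  refine le_trans (le_of_eq ?_) h
  apply sum_congr rfl
  intro r _
  apply sum_congr rfl
  intro a _
  congr 1
  have h2 : ∑ k ∈ Icc (-((2 * N : ℕ):ℤ)) ((2 * N : ℕ):ℤ), (t k : ℂ) * ee ((k:ℝ) * (a / r + β)) =
      ee (-((2 * N + 1 : ℝ) * (a / r + β))) *
        ∑ n ∈ Icc 1 (4 * N + 1), (t ((n:ℤ) - (2 * N + 1)) : ℂ) * ee ((n:ℝ) * (a / r + β)) := by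
    rw [← hre ℂ (fun k => (t k : ℂ) * ee ((k:ℝ) * (a / r + β))), mul_sum]
    apply sum_congr rfl
    intro n _
    have : ee ((((n:ℤ) - (2 * N + 1) : ℤ) : ℝ) * (a / r + β)) =
        ee (-((2 * N + 1 : ℝ) * (a / r + β))) * ee ((n:ℝ) * (a / r + β)) := by
      rw [← ls_ee_add]
      congr 1
      push_cast
      ring
    rw [this]
    ring
  rw [h2, norm_mul, ls_norm_ee, one_mul]

lemma D_exp (N : ℕ) (hN : 1 ≤ N) (Rs : Finset ℕ) (hRs : ∀ r ∈ Rs, r.Prime)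
    (P : Finset ℕ) (hP : P ⊆ Icc 1 N) (t : ℤ → ℝ) :
    ((5 * N : ℕ) : ℂ) * ((∑ p ∈ P, ∑ k ∈ Icc (-((2 * N : ℕ):ℤ)) ((2 * N : ℕ):ℤ), t k * c Rs N (p + k) : ℝ) : ℂ) =
      - ∑ j ∈ range (5 * N), (F N ((j:ℝ) / ((5 * N : ℕ):ℝ)) : ℂ) * ∑ r ∈ Rs, ∑ a ∈ cop r, (1 / (r:ℂ)) *
        ((∑ p ∈ P, ee ((p:ℝ) * (a / r + -((j:ℝ) / ((5 * N : ℕ):ℝ))))) *
        (∑ k ∈ Icc (-((2 * N : ℕ):ℤ)) ((2 * N : ℕ):ℤ), (t k : ℂ) * ee ((k:ℝ) * (a / r + -((j:ℝ) / ((5 * N : ℕ):ℝ)))))) := by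
  have h1 : ∀ p ∈ P, ∀ k ∈ Icc (-((2 * N : ℕ):ℤ)) ((2 * N : ℕ):ℤ),
      ((5 * N : ℕ) : ℂ) * ((t k : ℂ) * (c Rs N (p + k) : ℂ)) =
      - ∑ j ∈ range (5 * N), ∑ r ∈ Rs, ∑ a ∈ cop r,
        (F N ((j:ℝ) / ((5 * N : ℕ):ℝ)) : ℂ) * ((1 / (r:ℂ)) *
        (ee ((p:ℝ) * (a / r + -((j:ℝ) / ((5 * N : ℕ):ℝ)))) *
        ((t k : ℂ) * ee ((k:ℝ) * (a / r + -((j:ℝ) / ((5 * N : ℕ):ℝ))))))) := by
    intro p hp k hk
    have hp' := hP hp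
    rw [mem_Icc] at hp' hk
    push_cast at hk
    have hm : |(p:ℤ) + k| ≤ 3 * N := by
      rw [abs_le]
      constructor <;> omega
    have hw := w_exp N hN ((p:ℤ) + k) hm
    unfold c
    push_cast
    push_cast at hw
    rw [A_eq Rs hRs]
    have e1 : (5 * (N:ℂ)) * ((t k : ℂ) * ((w N ((p:ℤ) + k) : ℂ) *
        -∑ r ∈ Rs, ∑ a ∈ cop r, (1 / (r:ℂ)) * ee ((((p:ℤ) + k : ℤ):ℝ) * (a / r)))) =
        - ((5 * (N:ℂ) * (w N ((p:ℤ) + k) : ℂ)) * ∑ r ∈ Rs, ∑ a ∈ cop r, (t k : ℂ) * ((1 / (r:ℂ)) * ee ((((p:ℤ) + k : ℤ):ℝ) * (a / r)))) := by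
      simp only [← mul_sum]
      ring
    rw [e1, ← hw, sum_mul]
    congr 1
    apply sum_congr rfl
    intro j _
    rw [mul_sum]
    apply sum_congr rfl
    intro r _
    rw [mul_sum]
    apply sum_congr rfl
    intro a _
    have e2 : ee (-(((p:ℝ) + k) * ((j:ℝ) / (5 * (N:ℝ))))) * ee ((((p:ℤ) + k : ℤ):ℝ) * (a / r)) =
        ee ((p:ℝ) * (a / r + -((j:ℝ) / (5 * (N:ℝ))))) * ee ((k:ℝ) * (a / r + -((j:ℝ) / (5 * (N:ℝ))))) := by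
      rw [← ls_ee_add, ← ls_ee_add]
      congr 1
      push_cast
      ring
    linear_combination ((F N ((j:ℝ) / (5 * (N:ℝ))) : ℂ) * (t k : ℂ) * (1 / (r:ℂ))) * e2
  rw [Complex.ofReal_sum, mul_sum]
  have h2 : ∀ p ∈ P, ((5 * N : ℕ) : ℂ) * ((∑ k ∈ Icc (-((2 * N : ℕ):ℤ)) ((2 * N : ℕ):ℤ), t k * c Rs N (p + k) : ℝ) : ℂ) =
      - ∑ j ∈ range (5 * N), ∑ r ∈ Rs, ∑ a ∈ cop r,
        (F N ((j:ℝ) / ((5 * N : ℕ):ℝ)) : ℂ) * ((1 / (r:ℂ)) *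
        (ee ((p:ℝ) * (a / r + -((j:ℝ) / ((5 * N : ℕ):ℝ)))) *
        (∑ k ∈ Icc (-((2 * N : ℕ):ℤ)) ((2 * N : ℕ):ℤ), (t k : ℂ) * ee ((k:ℝ) * (a / r + -((j:ℝ) / ((5 * N : ℕ):ℝ))))))) := by
    intro p hp
    rw [Complex.ofReal_sum, mul_sum]
    have : ∀ k ∈ Icc (-((2 * N : ℕ):ℤ)) ((2 * N : ℕ):ℤ),
      ((5 * N : ℕ) : ℂ) * ((t k * c Rs N (p + k) : ℝ) : ℂ) =
      - ∑ j ∈ range (5 * N), ∑ r ∈ Rs, ∑ a ∈ cop r,
        (F N ((j:ℝ) / ((5 * N : ℕ):ℝ)) : ℂ) * ((1 / (r:ℂ)) *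
        (ee ((p:ℝ) * (a / r + -((j:ℝ) / ((5 * N : ℕ):ℝ)))) *
        ((t k : ℂ) * ee ((k:ℝ) * (a / r + -((j:ℝ) / ((5 * N : ℕ):ℝ))))))) := by
      intro k hk
      rw [Complex.ofReal_mul]
      exact h1 p hp k hk
    rw [sum_congr rfl this, sum_neg_distrib]
    congr 1
    rw [sum_comm]
    apply sum_congr rfl
    intro j _
    rw [sum_comm]
    apply sum_congr rfl
    intro r _
    rw [sum_comm]
    apply sum_congr rfl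
    intro a _
    simp only [← mul_sum]
  rw [sum_congr rfl h2, sum_neg_distrib]
  congr 1
  rw [sum_comm]
  apply sum_congr rfl
  intro j _
  rw [mul_sum, sum_comm]
  apply sum_congr rfl
  intro r _
  rw [mul_sum, sum_comm]
  apply sum_congr rfl
  intro a _
  rw [sum_mul, mul_sum, mul_sum]

theorem D_bound (N R R0 : ℕ) (hN : 1 ≤ N) (hR0 : 1 ≤ R0) (Rs : Finset ℕ) (hRs : ∀ r ∈ Rs, r.Prime)
    (hR : ∀ r ∈ Rs, r ≤ R) (hR0' : ∀ r ∈ Rs, R0 ≤ r)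
    (P : Finset ℕ) (hP : P ⊆ Icc 1 N) (t : ℤ → ℝ) :
    (R0:ℝ) * |∑ p ∈ P, ∑ k ∈ Icc (-((2 * N : ℕ):ℤ)) ((2 * N : ℕ):ℤ), t k * c Rs N (p + k)| ≤
      Real.sqrt ((6 * (N + (R:ℝ) ^ 2) * P.card) * (6 * ((4 * N + 1 : ℕ) + (R:ℝ) ^ 2) *
        ∑ k ∈ Icc (-((2 * N : ℕ):ℤ)) ((2 * N : ℕ):ℤ), (t k) ^ 2)) := by
  set Q : ℝ := Real.sqrt ((6 * (N + (R:ℝ) ^ 2) * P.card) * (6 * ((4 * N + 1 : ℕ) + (R:ℝ) ^ 2) *
        ∑ k ∈ Icc (-((2 * N : ℕ):ℤ)) ((2 * N : ℕ):ℤ), (t k) ^ 2)) with hQ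
  set X : ℝ := ∑ p ∈ P, ∑ k ∈ Icc (-((2 * N : ℕ):ℤ)) ((2 * N : ℕ):ℤ), t k * c Rs N (p + k) with hX
  have hR00 : (0:ℝ) < R0 := by exact_mod_cast hR0
  have hM0 : (0:ℝ) < ((5 * N : ℕ):ℝ) := by exact_mod_cast (by omega : 0 < 5 * N)
  have hexp := D_exp N hN Rs hRs P hP t
  rw [← hX] at hexp
  have hn : ((5 * N : ℕ):ℝ) * |X| = ‖((5 * N : ℕ) : ℂ) * (X : ℂ)‖ := by
    rw [norm_mul, Complex.norm_natCast, Complex.norm_real, Real.norm_eq_abs]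
  -- bound for each j
  have hj : ∀ β : ℝ, ‖∑ r ∈ Rs, ∑ a ∈ cop r, (1 / (r:ℂ)) *
        ((∑ p ∈ P, ee ((p:ℝ) * (a / r + β))) *
        (∑ k ∈ Icc (-((2 * N : ℕ):ℤ)) ((2 * N : ℕ):ℤ), (t k : ℂ) * ee ((k:ℝ) * (a / r + β))))‖ ≤
        (1 / (R0:ℝ)) * Q := by
    intro β
    have s1 : ‖∑ r ∈ Rs, ∑ a ∈ cop r, (1 / (r:ℂ)) *
        ((∑ p ∈ P, ee ((p:ℝ) * (a / r + β))) *
        (∑ k ∈ Icc (-((2 * N : ℕ):ℤ)) ((2 * N : ℕ):ℤ), (t k : ℂ) * ee ((k:ℝ) * (a / r + β))))‖ ≤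
        ∑ r ∈ Rs, ∑ a ∈ cop r, (1 / (R0:ℝ)) *
        (‖∑ p ∈ P, ee ((p:ℝ) * (a / r + β))‖ *
        ‖∑ k ∈ Icc (-((2 * N : ℕ):ℤ)) ((2 * N : ℕ):ℤ), (t k : ℂ) * ee ((k:ℝ) * (a / r + β))‖) := by
      refine (norm_sum_le _ _).trans (sum_le_sum fun r hr => ?_)
      refine (norm_sum_le _ _).trans (sum_le_sum fun a _ => ?_)
      rw [norm_mul, norm_mul, norm_div, norm_one, Complex.norm_natCast]
      apply mul_le_mul_of_nonneg_right _ (by positivity)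
      apply one_div_le_one_div_of_le hR00
      exact_mod_cast hR0' r hr
    refine s1.trans ?_
    simp only [← mul_sum]
    apply mul_le_mul_of_nonneg_left _ (by positivity)
    rw [hQ]
    apply Real.le_sqrt_of_sq_le
    have e : ∑ r ∈ Rs, ∑ a ∈ cop r,
        (‖∑ p ∈ P, ee ((p:ℝ) * (a / r + β))‖ *
        ‖∑ k ∈ Icc (-((2 * N : ℕ):ℤ)) ((2 * N : ℕ):ℤ), (t k : ℂ) * ee ((k:ℝ) * (a / r + β))‖) =
        ∑ x ∈ Rs.sigma (fun r => cop r),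
        (‖∑ p ∈ P, ee ((p:ℝ) * (x.2 / x.1 + β))‖ *
        ‖∑ k ∈ Icc (-((2 * N : ℕ):ℤ)) ((2 * N : ℕ):ℤ), (t k : ℂ) * ee ((k:ℝ) * (x.2 / x.1 + β))‖) := by
      rw [sum_sigma]
    rw [e]
    refine (cs_sum _ _ _).trans ?_
    rw [sum_sigma, sum_sigma]
    apply mul_le_mul (ls_P N R Rs hRs hR P hP β) (ls_K N R Rs hRs hR t β) (by positivity) (by positivity)
  have hF : ∑ j ∈ range (5 * N), F N ((j:ℝ) / ((5 * N : ℕ):ℝ)) = ((5 * N : ℕ):ℝ) := by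
    have h0 := w_exp N hN 0 (by simp)
    have hw0 : w N 0 = 1 := by unfold w; simp
    simp only [Int.cast_zero, zero_mul, neg_zero, ls_ee_zero, mul_one, hw0, Complex.ofReal_one] at h0
    exact_mod_cast h0
  have hfin : ((5 * N : ℕ):ℝ) * |X| ≤ ((5 * N : ℕ):ℝ) * ((1 / (R0:ℝ)) * Q) := by
    rw [hn, hexp, norm_neg]
    refine (norm_sum_le _ _).trans ?_
    calc ∑ j ∈ range (5 * N), ‖(F N ((j:ℝ) / ((5 * N : ℕ):ℝ)) : ℂ) * ∑ r ∈ Rs, ∑ a ∈ cop r, (1 / (r:ℂ)) *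
        ((∑ p ∈ P, ee ((p:ℝ) * (a / r + -((j:ℝ) / ((5 * N : ℕ):ℝ))))) *
        (∑ k ∈ Icc (-((2 * N : ℕ):ℤ)) ((2 * N : ℕ):ℤ), (t k : ℂ) * ee ((k:ℝ) * (a / r + -((j:ℝ) / ((5 * N : ℕ):ℝ))))))‖
        ≤ ∑ j ∈ range (5 * N), F N ((j:ℝ) / ((5 * N : ℕ):ℝ)) * ((1 / (R0:ℝ)) * Q) := by
          apply sum_le_sum
          intro j _
          rw [norm_mul, Complex.norm_real, Real.norm_eq_abs, abs_of_nonneg (F_nonneg _ _)]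
          exact mul_le_mul_of_nonneg_left (hj _) (F_nonneg _ _)
      _ = ((5 * N : ℕ):ℝ) * ((1 / (R0:ℝ)) * Q) := by rw [← sum_mul, hF]
  have h5 := le_of_mul_le_mul_left hfin hM0
  calc (R0:ℝ) * |X| ≤ (R0:ℝ) * ((1 / (R0:ℝ)) * Q) := mul_le_mul_of_nonneg_left h5 hR00.le
    _ = Q := by field_simp

end Pool.Agent.H408R2.EHLow
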