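import Pool.Agent.H408R2.EHLow.Param

/-!
Helper file (content of the former hand-in MP_a78e8f_nt.LowerBound by helper408, used by H601R2/SqLow).
Unconditional lower bounds for the Elliott-Halberstam sum: for every large `x`, almost all moduli
`q ≤ x` have a large variance, and `∑_{q ≤ Q} E(x;q) ≥ x^{-ε} (xQ)^{1/2}` for `x^{1/2+ε} ≤ Q ≤ x`.
-/

namespace Pool.Agent.H408R2.EHLow.LowerBoundLib

open Finset Filter Pool.Agent.H408R2.EHLow

/-- the variance of the primes `≤ x` over the reduced residue classes modulo `q` -/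
noncomputable def variance (x q : ℕ) : ℝ :=
  ∑ a ∈ (range q).filter (fun a => a.Coprime q),
    ((N34c950ba.primesInAPCount x q (a : ZMod q) : ℝ) - (x.primeCounting : ℝ) / (q.totient : ℝ)) ^ 2

theorem variance_eq (x q : ℕ) [NeZero q] : variance x q = Vr x q := by
  unfold variance Vr
  symm
  refine sum_bij' (fun (b : (ZMod q)ˣ) _ => (b : ZMod q).val)
    (fun a ha => ZMod.unitOfCoprime a (mem_filter.mp ha).2) ?_ ?_ ?_ ?_ ?_
  · intro b _
    rw [mem_filter, mem_range]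
    exact ⟨ZMod.val_lt _, ZMod.val_coe_unit_coprime b⟩
  · intro a _; exact mem_univ _
  · intro b _
    apply Units.ext
    rw [ZMod.coe_unitOfCoprime, ZMod.natCast_zmod_val]
  · intro a ha
    rw [mem_filter, mem_range] at ha
    rw [ZMod.coe_unitOfCoprime, ZMod.val_natCast, Nat.mod_eq_of_lt ha.1]
  · intro b _
    rw [ZMod.natCast_zmod_val]

theorem E_ge (x q : ℕ) [NeZero q] (a : (ZMod q)ˣ) :
    |(N34c950ba.primesInAPCount x q a : ℝ) - (x.primeCounting : ℝ) / (q.totient : ℝ)| ≤ N34c950ba.E x q := by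
  unfold N34c950ba.E
  exact le_ciSup (f := fun a : (ZMod q)ˣ =>
    |(N34c950ba.primesInAPCount x q a : ℝ) - (x.primeCounting : ℝ) / (q.totient : ℝ)|)
    (Set.finite_range _).bddAbove a

theorem E_nonneg (x q : ℕ) : 0 ≤ N34c950ba.E x q := by
  unfold N34c950ba.E
  exact Real.iSup_nonneg fun _ => abs_nonneg _

theorem Vr_le (x q : ℕ) [NeZero q] : Vr x q ≤ q * N34c950ba.E x q ^ 2 := by
  unfold Vr
  calc ∑ b : (ZMod q)ˣ, ((N34c950ba.primesInAPCount x q b : ℝ) - (x.primeCounting : ℝ) / (q.totient : ℝ)) ^ 2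
      ≤ ∑ _b : (ZMod q)ˣ, N34c950ba.E x q ^ 2 := by
        apply sum_le_sum
        intro b _
        rw [← sq_abs]
        exact pow_le_pow_left₀ (abs_nonneg _) (E_ge x q b) 2
    _ = (q.totient : ℝ) * N34c950ba.E x q ^ 2 := by
        rw [sum_const, card_univ, ZMod.card_units_eq_totient, nsmul_eq_mul]
    _ ≤ _ := by
        apply mul_le_mul_of_nonneg_right _ (sq_nonneg _)
        exact_mod_cast Nat.totient_le q

/-- the basic estimate -/
theorem base (η : ℝ) (hη : 0 < η) : ∀ᶠ x : ℕ in atTop, ∀ Q : Finset ℕ, (∀ q ∈ Q, 1 ≤ q ∧ q ≤ x) →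
    (∀ q ∈ Q, ∀ _ : NeZero q, Vr x q ≤ (x:ℝ) ^ (1 - η)) → ∑ q ∈ Q, (q:ℝ) ≤ (x:ℝ) ^ (1 + η) := by
  set δ : ℝ := min η 1 / 20 with hδ
  have hm : 0 < min η 1 := lt_min hη one_pos
  have hδ0 : 0 < δ := by positivity
  have hδ1 : δ ≤ 1 / 20 := by
    rw [hδ]
    have := min_le_right η 1
    linarith
  have hδη : 20 * δ ≤ η := by
    rw [hδ]
    have := min_le_left η 1
    linarith
  filter_upwards [good_ex δ hδ0 hδ1, eventually_ge_atTop 1] with x hx hx1
  obtain ⟨R, R0, g⟩ := hx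
  have hx1' : (1:ℝ) ≤ x := by exact_mod_cast hx1
  have hx0 : (0:ℝ) < x := by linarith
  intro Q hQ hV
  have h := all_except g Q hQ (by
    intro q hq inst
    refine (hV q hq inst).trans ?_
    rw [← Real.rpow_natCast, ← Real.rpow_mul hx0.le, div_eq_mul_inv, ← Real.rpow_neg hx0.le]
    nth_rewrite 2 [← Real.rpow_one (x:ℝ)]
    rw [← Real.rpow_add hx0]
    apply Real.rpow_le_rpow_of_exponent_le hx1'
    push_cast
    linarith)
  refine h.trans ?_
  rw [← Real.rpow_natCast, ← Real.rpow_mul hx0.le]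
  nth_rewrite 1 [← Real.rpow_one (x:ℝ)]
  rw [← Real.rpow_add hx0]
  apply Real.rpow_le_rpow_of_exponent_le hx1'
  push_cast
  linarith

end Pool.Agent.H408R2.EHLow.LowerBoundLib
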