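import Pool.Agent.H408R2.EHLow.Var
import Pool.Agent.H408R2.EHLow.Dlem
import Pool.Prelude.Def_F_8fd6acf3

open Finset

namespace Pool.Agent.H408R2.EHLow

open Pool.Agent.Helper112

/-- the variance of the primes `≤ x` in the reduced classes modulo `q` -/
noncomputable def Vr (x q : ℕ) [NeZero q] : ℝ :=
  ∑ b : (ZMod q)ˣ, ((N34c950ba.primesInAPCount x q b : ℝ) - (x.primeCounting : ℝ) / (q.totient : ℝ)) ^ 2

def PP (N : ℕ) : Finset ℕ := (Icc 1 N).filter Nat.Prime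

lemma PP_sub (N : ℕ) : PP N ⊆ Icc 1 N := filter_subset _ _

lemma PP_card (N : ℕ) : (PP N).card = N.primeCounting := by
  unfold PP
  rw [Nat.primeCounting, Nat.primeCounting', Nat.count_eq_card_filter_range]
  congr 1
  ext p
  simp only [mem_filter, mem_Icc, mem_range]
  constructor
  · rintro ⟨h, h'⟩; exact ⟨by omega, h'⟩
  · rintro ⟨h, h'⟩; exact ⟨⟨h'.one_lt.le, by omega⟩, h'⟩

lemma AP_eq (N q : ℕ) (b : ZMod q) :
    N34c950ba.primesInAPCount N q b = ((PP N).filter (fun p : ℕ => (p : ZMod q) = b)).card := by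
  unfold N34c950ba.primesInAPCount PP
  congr 1
  ext p
  simp only [mem_filter, mem_Icc, mem_range]
  constructor
  · rintro ⟨h, h', h''⟩; exact ⟨⟨⟨h'.one_lt.le, by omega⟩, h'⟩, h''⟩
  · rintro ⟨⟨h, h'⟩, h''⟩; exact ⟨by omega, h', h''⟩

/-- Cauchy–Schwarz against the variance -/
lemma T_le (Rs : Finset ℕ) (N q : ℕ) [NeZero q] :
    |∑ b : (ZMod q)ˣ, ((N34c950ba.primesInAPCount N q b : ℝ) - (N.primeCounting : ℝ) / (q.totient : ℝ)) *
      G Rs N q b| ≤ Real.sqrt (Vr N q * W Rs N q) := by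
  apply Real.abs_le_sqrt
  refine (Finset.sum_mul_sq_le_sq_mul_sq _ _ _).trans ?_
  unfold Vr
  apply mul_le_mul_of_nonneg_left _ (sum_nonneg fun _ _ => sq_nonneg _)
  rw [← G_sq]
  have : ∑ b : (ZMod q)ˣ, G Rs N q (b : ZMod q) ^ 2 =
      ∑ b ∈ univ.image (fun b : (ZMod q)ˣ => (b : ZMod q)), G Rs N q b ^ 2 := by
    rw [sum_image]
    intro a _ b _ h
    exact Units.ext h
  rw [this]
  exact sum_le_sum_of_subset_of_nonneg (subset_univ _) (fun _ _ _ => sq_nonneg _)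

lemma sum_moebius (n : ℕ) : ∑ d ∈ n.divisors, (ArithmeticFunction.moebius d : ℤ) = if n = 1 then 1 else 0 := by
  have h := congrArg (fun f : ArithmeticFunction ℤ => f n) ArithmeticFunction.coe_zeta_mul_moebius
  simp only [ArithmeticFunction.coe_zeta_mul_apply, ArithmeticFunction.one_apply] at h
  exact h

lemma unit_ind (q : ℕ) (hq : 1 ≤ q) (n : ℤ) [Decidable (IsUnit (n : ZMod q))] :
    (∑ d ∈ q.divisors, (ArithmeticFunction.moebius d : ℤ) * (if (d:ℤ) ∣ n then 1 else 0)) =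
      if IsUnit (n : ZMod q) then 1 else 0 := by
  have h1 : (∑ d ∈ q.divisors, (ArithmeticFunction.moebius d : ℤ) * (if (d:ℤ) ∣ n then 1 else 0)) =
      ∑ d ∈ (Nat.gcd q n.natAbs).divisors, (ArithmeticFunction.moebius d : ℤ) := by
    simp only [mul_ite, mul_one, mul_zero]
    rw [← sum_filter]
    apply sum_congr _ (fun _ _ => rfl)
    ext d
    simp only [mem_filter, Nat.mem_divisors]
    have hg : Nat.gcd q n.natAbs ≠ 0 := by
      intro h
      have := Nat.eq_zero_of_gcd_eq_zero_left h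
      omega
    rw [Nat.dvd_gcd_iff]
    have e : ((d:ℤ) ∣ n) ↔ d ∣ n.natAbs := by
      rw [← Int.natCast_dvd]
    rw [e]
    constructor
    · rintro ⟨⟨h, _⟩, h'⟩; exact ⟨⟨h, h'⟩, hg⟩
    · rintro ⟨⟨h, h'⟩, _⟩; exact ⟨⟨h, by omega⟩, h'⟩
  rw [h1, sum_moebius]
  have h2 : IsUnit (n : ZMod q) ↔ Nat.gcd q n.natAbs = 1 := by
    rw [ZMod.coe_int_isUnit_iff_isCoprime, Int.isCoprime_iff_gcd_eq_one]
    rfl
  simp only [h2]

lemma mean_eq (Rs : Finset ℕ) (N q : ℕ) [NeZero q] :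
    ∑ b : (ZMod q)ˣ, G Rs N q b = ∑ d ∈ q.divisors, ((ArithmeticFunction.moebius d : ℤ) : ℝ) * G0 Rs N d := by
  classical
  have hq : 1 ≤ q := Nat.one_le_iff_ne_zero.mpr (NeZero.ne q)
  unfold G G0
  rw [sum_comm]
  simp only [mul_sum]
  rw [sum_comm (s := q.divisors)]
  apply sum_congr rfl
  intro n _
  have h := unit_ind q hq n
  have h' : (∑ d ∈ q.divisors, ((ArithmeticFunction.moebius d : ℤ) : ℝ) * (if (d:ℤ) ∣ n then 1 else 0)) =
      if IsUnit (n : ZMod q) then (1:ℝ) else 0 := by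
    exact_mod_cast h
  have h2 : ∑ d ∈ q.divisors, ((ArithmeticFunction.moebius d : ℤ) : ℝ) * (if (d:ℤ) ∣ n then c Rs N n else 0) =
      (if IsUnit (n : ZMod q) then (1:ℝ) else 0) * c Rs N n := by
    rw [← h', sum_mul]
    apply sum_congr rfl
    intro d _
    split_ifs <;> ring
  rw [h2]
  split_ifs with hu
  · obtain ⟨u, hu'⟩ := hu
    rw [sum_eq_single u]
    · rw [if_pos hu'.symm, one_mul]
    · intro b _ hb
      rw [if_neg]
      intro h
      apply hb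
      apply Units.ext
      rw [← h, hu']
    · intro h; exact absurd (mem_univ _) h
  · rw [zero_mul]
    apply sum_eq_zero
    intro b _
    rw [if_neg]
    intro h
    exact hu ⟨b, h.symm⟩

lemma mean_le (Rs : Finset ℕ) (hRs : ∀ r ∈ Rs, r.Prime) (N q : ℕ) (hN : 1 ≤ N) [NeZero q] :
    |∑ b : (ZMod q)ˣ, G Rs N q b| ≤ ∑ d ∈ q.divisors, (-G0 Rs N d) := by
  rw [mean_eq]
  refine (abs_sum_le_sum_abs _ _).trans (sum_le_sum fun d hd => ?_)
  have hd1 : 1 ≤ d := Nat.pos_of_mem_divisors hd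
  have h0 := G0_nonpos Rs hRs N d hN hd1
  rw [abs_mul]
  have h1 : |((ArithmeticFunction.moebius d : ℤ) : ℝ)| ≤ 1 := by
    have := ArithmeticFunction.abs_moebius_le_one (n := d)
    exact_mod_cast this
  have h2 : |G0 Rs N d| = -G0 Rs N d := abs_of_nonpos (by linarith)
  rw [h2]
  calc |((ArithmeticFunction.moebius d : ℤ) : ℝ)| * -G0 Rs N d ≤ 1 * -G0 Rs N d :=
        mul_le_mul_of_nonneg_right h1 h0
    _ = _ := one_mul _

/-- the off-diagonal part -/
noncomputable def Dq (Rs : Finset ℕ) (N q : ℕ) : ℝ :=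
  ∑ p ∈ PP N, ∑ k ∈ Icc (-((2 * N : ℕ):ℤ)) ((2 * N : ℕ):ℤ),
    (if k ≠ 0 ∧ (q:ℤ) ∣ k then 1 else 0) * c Rs N (p + k)

lemma c_out (Rs : Finset ℕ) (N : ℕ) (hN : 1 ≤ N) (n : ℤ) (h : (N:ℤ) ≤ |n|) : c Rs N n = 0 := by
  unfold c; rw [w_out N hN n h, zero_mul]

lemma G_at (Rs : Finset ℕ) (N q : ℕ) (hN : 1 ≤ N) (p : ℕ) (hp : p ∈ Icc 1 N) :
    G Rs N q (p : ZMod q) = c Rs N p + ∑ k ∈ Icc (-((2 * N : ℕ):ℤ)) ((2 * N : ℕ):ℤ),
      (if k ≠ 0 ∧ (q:ℤ) ∣ k then 1 else 0) * c Rs N (p + k) := by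
  rw [mem_Icc] at hp
  have h1 : c Rs N p + ∑ k ∈ Icc (-((2 * N : ℕ):ℤ)) ((2 * N : ℕ):ℤ),
      (if k ≠ 0 ∧ (q:ℤ) ∣ k then 1 else 0) * c Rs N (p + k) =
      ∑ k ∈ Icc (-((2 * N : ℕ):ℤ)) ((2 * N : ℕ):ℤ), (if (q:ℤ) ∣ k then c Rs N (p + k) else 0) := by
    have h0 : (0:ℤ) ∈ Icc (-((2 * N : ℕ):ℤ)) ((2 * N : ℕ):ℤ) := by
      rw [mem_Icc]; constructor <;> omega
    rw [← add_sum_erase _ _ h0, ← add_sum_erase (Icc (-((2 * N : ℕ):ℤ)) ((2 * N : ℕ):ℤ))
      (fun k => (if (q:ℤ) ∣ k then c Rs N (p + k) else 0)) h0]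
    simp only [ne_eq, not_true_eq_false, false_and, if_false, zero_mul, zero_add, dvd_zero, if_true, add_zero]
    congr 1
    apply sum_congr rfl
    intro k hk
    have hk0 : k ≠ 0 := (mem_erase.mp hk).1
    by_cases h : (q:ℤ) ∣ k
    · rw [if_pos ⟨hk0, h⟩, if_pos h, one_mul]
    · rw [if_neg (fun h' => h h'.2), if_neg h, zero_mul]
  rw [h1]
  have h2 : ∑ k ∈ Icc (-((2 * N : ℕ):ℤ)) ((2 * N : ℕ):ℤ), (if (q:ℤ) ∣ k then c Rs N (p + k) else 0) =
      ∑ n ∈ Icc ((p:ℤ) - (2 * N : ℕ)) ((p:ℤ) + (2 * N : ℕ)), (if (q:ℤ) ∣ n - p then c Rs N n else 0) := by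
    apply sum_bij' (fun k _ => (p:ℤ) + k) (fun n _ => n - p)
    · intro k hk; rw [mem_Icc] at hk ⊢; push_cast at hk ⊢; constructor <;> omega
    · intro n hn; rw [mem_Icc] at hn ⊢; push_cast at hn ⊢; constructor <;> omega
    · intro k _; ring
    · intro n _; ring
    · intro k _
      simp only [add_sub_cancel_left]
  rw [h2]
  have hsub : Icc (-(N:ℤ)) N ⊆ Icc ((p:ℤ) - (2 * N : ℕ)) ((p:ℤ) + (2 * N : ℕ)) := by
    intro n hn
    rw [mem_Icc] at hn ⊢
    push_cast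
    constructor <;> omega
  rw [← sum_subset hsub]
  · unfold G
    apply sum_congr rfl
    intro n _
    have hiff : ((n : ZMod q) = (p : ZMod q)) ↔ (q:ℤ) ∣ n - p := by
      have := ZMod.intCast_eq_intCast_iff_dvd_sub (p:ℤ) n q
      rw [Int.cast_natCast] at this
      rw [← this]
      exact eq_comm
    simp only [hiff]
  · intro n _ hn
    have : (N:ℤ) ≤ |n| := by
      rw [mem_Icc] at hn
      rw [le_abs]
      by_contra hcon
      push Not at hcon
      apply hn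
      omega
    rw [c_out Rs N hN n this]
    simp

lemma PG_eq (Rs : Finset ℕ) (N q : ℕ) [NeZero q] :
    ∑ b : (ZMod q)ˣ, (N34c950ba.primesInAPCount N q b : ℝ) * G Rs N q b =
      ∑ p ∈ PP N, G Rs N q p - ∑ p ∈ (PP N).filter (fun p => p ∣ q), G Rs N q p := by
  classical
  have h1 : ∀ b : (ZMod q)ˣ, (N34c950ba.primesInAPCount N q b : ℝ) * G Rs N q b =
      ∑ p ∈ PP N, if (p : ZMod q) = b then G Rs N q p else 0 := by
    intro b
    rw [AP_eq, ← sum_filter, ← nsmul_eq_mul, ← sum_const]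
    apply sum_congr rfl
    intro p hp
    rw [(mem_filter.mp hp).2]
  rw [sum_congr rfl (fun b _ => h1 b), sum_comm]
  rw [← sum_filter_add_sum_filter_not (PP N) (fun p => p ∣ q) (fun p => G Rs N q (p : ZMod q))]
  rw [add_sub_cancel_left]
  rw [← sum_filter_add_sum_filter_not (PP N) (fun p => p ∣ q)]
  have h2 : ∑ p ∈ (PP N).filter (fun p => p ∣ q), ∑ b : (ZMod q)ˣ,
      (if (p : ZMod q) = (b : ZMod q) then G Rs N q p else 0) = 0 := by
    apply sum_eq_zero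
    intro p hp
    apply sum_eq_zero
    intro b _
    rw [mem_filter] at hp
    have hpp : p.Prime := (mem_filter.mp hp.1).2
    rw [if_neg]
    intro h
    have hu : IsUnit (p : ZMod q) := by rw [h]; exact b.isUnit
    rw [ZMod.isUnit_iff_coprime] at hu
    have := (Nat.Prime.coprime_iff_not_dvd hpp).mp hu
    exact this hp.2
  rw [h2, zero_add]
  apply sum_congr rfl
  intro p hp
  rw [mem_filter] at hp
  have hpp : p.Prime := (mem_filter.mp hp.1).2
  have hc : p.Coprime q := (Nat.Prime.coprime_iff_not_dvd hpp).mpr hp.2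
  rw [sum_eq_single (ZMod.unitOfCoprime p hc)]
  · rw [if_pos (ZMod.coe_unitOfCoprime p hc).symm]
  · intro b _ hb
    rw [if_neg]
    intro h
    apply hb
    apply Units.ext
    rw [ZMod.coe_unitOfCoprime, h]
  · intro h; exact absurd (mem_univ _) h

lemma small_le (Rs : Finset ℕ) (N q : ℕ) [NeZero q] :
    |∑ p ∈ (PP N).filter (fun p => p ∣ q), G Rs N q p| ≤ Real.sqrt ((q.divisors.card : ℝ) * W Rs N q) := by
  have hq : q ≠ 0 := NeZero.ne q
  apply Real.abs_le_sqrt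
  have h1 := Finset.sum_mul_sq_le_sq_mul_sq ((PP N).filter (fun p => p ∣ q)) (fun _ => (1:ℝ))
    (fun p => G Rs N q (p : ZMod q))
  simp only [one_mul, one_pow, sum_const, nsmul_eq_mul, mul_one] at h1
  refine h1.trans ?_
  have hcard : (((PP N).filter (fun p => p ∣ q)).card : ℝ) ≤ (q.divisors.card : ℝ) := by
    have : ((PP N).filter (fun p => p ∣ q)).card ≤ q.divisors.card := by
      apply card_le_card
      intro p hp
      rw [mem_filter] at hp
      rw [Nat.mem_divisors]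
      exact ⟨hp.2, hq⟩
    exact_mod_cast this
  apply mul_le_mul hcard _ (sum_nonneg fun _ _ => sq_nonneg _) (by positivity)
  rw [← G_sq]
  have h2 : ∑ p ∈ (PP N).filter (fun p => p ∣ q), G Rs N q (p : ZMod q) ^ 2 =
      ∑ b ∈ ((PP N).filter (fun p => p ∣ q)).image (fun p : ℕ => (p : ZMod q)), G Rs N q b ^ 2 := by
    rw [sum_image]
    intro a ha b hb hab
    simp only [coe_filter, Set.mem_setOf_eq] at ha hb
    have ha1 : a ≤ q := Nat.le_of_dvd (Nat.pos_of_ne_zero hq) ha.2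
    have hb1 : b ≤ q := Nat.le_of_dvd (Nat.pos_of_ne_zero hq) hb.2
    have ha2 : 1 ≤ a := (mem_Icc.mp (PP_sub N ha.1)).1
    have hb2 : 1 ≤ b := (mem_Icc.mp (PP_sub N hb.1)).1
    have hab' : a ≡ b [MOD q] := (ZMod.natCast_eq_natCast_iff a b q).mp hab
    have hdv : (q:ℤ) ∣ (b:ℤ) - a := Nat.modEq_iff_dvd.mp hab'
    have hlt : |(b:ℤ) - a| < q := by
      rw [abs_lt]; constructor <;> omega
    have := Int.eq_zero_of_abs_lt_dvd hdv hlt
    omega
  rw [h2]
  exact sum_le_sum_of_subset_of_nonneg (subset_univ _) (fun _ _ _ => sq_nonneg _)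

/-- the main inequality for one modulus -/
theorem key (Rs : Finset ℕ) (hRs : ∀ r ∈ Rs, r.Prime) (N q : ℕ) (hN : 1 ≤ N) [NeZero q] :
    ∑ p ∈ PP N, c Rs N p ≤ |Dq Rs N q| + Real.sqrt (Vr N q * W Rs N q) +
      Real.sqrt ((q.divisors.card : ℝ) * W Rs N q) +
      ((N.primeCounting : ℝ) / (q.totient : ℝ)) * ∑ d ∈ q.divisors, (-G0 Rs N d) := by
  have h1 : ∑ b : (ZMod q)ˣ, ((N34c950ba.primesInAPCount N q b : ℝ) - (N.primeCounting : ℝ) / (q.totient : ℝ)) *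
      G Rs N q b = ∑ p ∈ PP N, G Rs N q p - ∑ p ∈ (PP N).filter (fun p => p ∣ q), G Rs N q p -
      ((N.primeCounting : ℝ) / (q.totient : ℝ)) * ∑ b : (ZMod q)ˣ, G Rs N q b := by
    simp only [sub_mul]
    rw [sum_sub_distrib, PG_eq, mul_sum]
  have h2 : ∑ p ∈ PP N, G Rs N q p = ∑ p ∈ PP N, c Rs N p + Dq Rs N q := by
    unfold Dq
    rw [← sum_add_distrib]
    apply sum_congr rfl
    intro p hp
    exact G_at Rs N q hN p (PP_sub N hp)
  have h3 := T_le Rs N q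
  rw [h1, h2] at h3
  have h4 := small_le Rs N q
  have h5 := mean_le Rs hRs N q hN
  have h6 : |((N.primeCounting : ℝ) / (q.totient : ℝ)) * ∑ b : (ZMod q)ˣ, G Rs N q b| ≤
      ((N.primeCounting : ℝ) / (q.totient : ℝ)) * ∑ d ∈ q.divisors, (-G0 Rs N d) := by
    rw [abs_mul, abs_of_nonneg (by positivity)]
    exact mul_le_mul_of_nonneg_left h5 (by positivity)
  rw [abs_le] at h3 h4 h6
  have h7 : -|Dq Rs N q| ≤ Dq Rs N q := neg_abs_le _
  linarith [h3.1, h3.2, h4.1, h4.2, h6.1, h6.2]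

end Pool.Agent.H408R2.EHLow
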