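import Pool.Agent.H408R2.EHLow.Agg

open Finset Filter

namespace Pool.Agent.H408R2.EHLow

open Pool.Agent.Helper112

lemma pi_big (δ K : ℝ) (hδ : 0 < δ) (hK : 0 < K) :
    ∀ᶠ n : ℕ in atTop, K * (n:ℝ) ^ (1 - δ) ≤ (n.primeCounting : ℝ) := by
  have hl2 : 0 < Real.log 2 := Real.log_pos (by norm_num)
  have h1 : ∀ᶠ x : ℝ in atTop, ‖Real.log x‖ ≤ (Real.log 2 / 2 / K) * ‖x ^ δ‖ :=
    (isLittleO_log_rpow_atTop hδ).bound (by positivity)
  have h2 : ∀ᶠ x : ℝ in atTop, ‖Real.log x‖ ≤ (Real.log 2 / 4) * ‖x ^ (1:ℝ)‖ :=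
    (isLittleO_log_rpow_atTop one_pos).bound (by positivity)
  have h1' := tendsto_natCast_atTop_atTop.eventually h1
  have h2' := tendsto_natCast_atTop_atTop.eventually h2
  filter_upwards [h1', h2', eventually_ge_atTop 4] with n hn1 hn2 hn4
  have hn4' : (4:ℝ) ≤ n := by exact_mod_cast hn4
  have hn0 : (0:ℝ) < n := by linarith
  have hlog : 0 < Real.log n := Real.log_pos (by linarith)
  have hpow : (0:ℝ) < (n:ℝ) ^ δ := Real.rpow_pos_of_pos hn0 _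
  rw [Real.norm_eq_abs, Real.norm_eq_abs, abs_of_pos hlog, abs_of_pos hpow] at hn1
  rw [Real.norm_eq_abs, Real.norm_eq_abs, abs_of_pos hlog, Real.rpow_one, abs_of_pos hn0] at hn2
  have h3 := Chebyshev.pi_ge n
  have h4 : Real.log ((n:ℝ) + 1) ≤ n * (Real.log 2 / 2) := by
    calc Real.log ((n:ℝ) + 1) ≤ Real.log (2 * n) := Real.log_le_log (by linarith) (by linarith)
      _ = Real.log 2 + Real.log n := Real.log_mul (by norm_num) hn0.ne'
      _ ≤ n * (Real.log 2 / 4) + (Real.log 2 / 4) * n := by nlinarith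
      _ = _ := by ring
  refine le_trans ?_ h3
  rw [le_div_iff₀ hlog]
  have h5 : (n:ℝ) ^ (1 - δ) * (n:ℝ) ^ δ = n := by
    rw [← Real.rpow_add hn0]
    simp
  have h6 : K * (n:ℝ) ^ (1 - δ) * Real.log n ≤ K * (n:ℝ) ^ (1 - δ) * (Real.log 2 / 2 / K * (n:ℝ) ^ δ) := by
    apply mul_le_mul_of_nonneg_left hn1
    have := Real.rpow_pos_of_pos hn0 (1 - δ)
    positivity
  have h7 : K * (n:ℝ) ^ (1 - δ) * (Real.log 2 / 2 / K * (n:ℝ) ^ δ) = n * (Real.log 2 / 2) := by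
    have : K * (n:ℝ) ^ (1 - δ) * (Real.log 2 / 2 / K * (n:ℝ) ^ δ) =
        ((n:ℝ) ^ (1 - δ) * (n:ℝ) ^ δ) * (Real.log 2 / 2) := by
      field_simp
    rw [this, h5]
  linarith

lemma RR_card_ge (R0 R : ℕ) : R.primeCounting ≤ R0 + (RR R0 R).card := by
  rw [← PP_card]
  have h : PP R ⊆ Icc 1 R0 ∪ RR R0 R := by
    intro p hp
    unfold PP at hp
    rw [mem_filter, mem_Icc] at hp
    rw [mem_union, mem_Icc]
    unfold RR
    rw [mem_filter, mem_Ioc]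
    by_cases h : p ≤ R0
    · left; exact ⟨hp.1.1, h⟩
    · right; exact ⟨⟨by omega, hp.1.2⟩, hp.2⟩
  refine (card_le_card h).trans ((card_union_le _ _).trans ?_)
  simp

lemma good_ex (δ : ℝ) (hδ : 0 < δ) (hδ1 : δ ≤ 1 / 20) :
    ∀ᶠ N : ℕ in atTop, ∃ R R0 : ℕ, Good N R R0 ((N:ℝ) ^ δ) (Real.sqrt N) := by
  obtain ⟨C, hC0, hC⟩ := divisor_bound (δ / 2) (by positivity)
  have hpi := pi_big δ 12 hδ (by norm_num)
  -- N / 2 → ∞
  have ht1 : Tendsto (fun N : ℕ => N / 2) atTop atTop := Nat.tendsto_div_const_atTop (by norm_num)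
  have ht2 : Tendsto (fun N : ℕ => Nat.sqrt N) atTop atTop := by
    apply tendsto_atTop_atTop.mpr
    intro b
    refine ⟨b * b, fun a ha => ?_⟩
    rw [Nat.le_sqrt]
    exact ha
  have e1 := ht1.eventually hpi
  have e2 := ht2.eventually hpi
  have e3 : ∀ᶠ N : ℕ in atTop, (100:ℝ) ≤ (N:ℝ) ^ δ :=
    ((tendsto_rpow_atTop hδ).comp tendsto_natCast_atTop_atTop).eventually (eventually_ge_atTop 100)
  have e4 : ∀ᶠ N : ℕ in atTop, 2 * C ≤ (N:ℝ) ^ (δ / 2) :=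
    ((tendsto_rpow_atTop (by positivity : 0 < δ / 2)).comp tendsto_natCast_atTop_atTop).eventually
      (eventually_ge_atTop (2 * C))
  filter_upwards [e1, e2, e3, e4, eventually_ge_atTop 100] with N h1 h2 h3 h4 h5
  have hN100 : (100:ℝ) ≤ N := by exact_mod_cast h5
  have hN0 : (0:ℝ) < N := by linarith
  set L : ℝ := (N:ℝ) ^ δ with hL
  set s : ℝ := Real.sqrt N with hs
  have hL0 : 0 < L := by linarith
  have hss : s ^ 2 = N := Real.sq_sqrt hN0.le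
  have hs0 : 0 < s := Real.sqrt_pos.mpr hN0
  have hsr : s = (N:ℝ) ^ (1/2:ℝ) := by rw [hs, Real.sqrt_eq_rpow]
  have hs10 : 10 ≤ s := by
    rw [hs]; apply Real.le_sqrt_of_sq_le; linarith
  have hLs : L ^ 10 ≤ s := by
    rw [hL, ← Real.rpow_natCast, ← Real.rpow_mul hN0.le, hsr]
    apply Real.rpow_le_rpow_of_exponent_le (by linarith)
    push_cast
    linarith
  have hLs1 : 2 * L ≤ s := by
    have : L * 2 ≤ L * L ^ 9 := by
      apply mul_le_mul_of_nonneg_left _ hL0.le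
      calc (2:ℝ) ≤ 100 ^ 9 := by norm_num
        _ ≤ L ^ 9 := pow_le_pow_left₀ (by norm_num) h3 9
    calc 2 * L = L * 2 := by ring
      _ ≤ L * L ^ 9 := this
      _ = L ^ 10 := by ring
      _ ≤ s := hLs
  have hsL : 2 ≤ s / L := by
    rw [le_div_iff₀ hL0]; exact hLs1
  have hfl : s / L < (⌊s / L⌋₊ : ℝ) + 1 := Nat.lt_floor_add_one _
  have hfl2 : (⌊s / L⌋₊ : ℝ) ≤ s / L := Nat.floor_le (by positivity)
  have hs2L : s / (2 * L) = (s / L) / 2 := by field_simp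
  have hRs : (Nat.sqrt N : ℝ) ≤ s := Real.nat_sqrt_le_real_sqrt
  have hRs2 : s / 2 ≤ (Nat.sqrt N : ℝ) := by
    have : s ≤ (Nat.sqrt N : ℝ) + 1 := Real.real_sqrt_le_nat_sqrt_succ
    linarith
  have hhalf : (1 / 2 : ℝ) ≤ (1/2:ℝ) ^ (1 - δ) := by
    have := Real.rpow_le_rpow_of_exponent_ge (by norm_num : (0:ℝ) < 1/2) (by norm_num : (1/2:ℝ) ≤ 1)
      (by linarith : 1 - δ ≤ 1)
    simpa using this
  refine ⟨Nat.sqrt N, ⌊s / L⌋₊, ⟨hss, hs0, hRs, ?_, ?_, h3, hLs, ?_, ?_, ?_⟩⟩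
  · rw [hs2L]; linarith
  · have : (1:ℝ) ≤ (⌊s / L⌋₊ : ℝ) := by linarith
    exact_mod_cast this
  · -- f1
    refine le_trans ?_ h1
    have h6 : (N:ℝ) / 3 ≤ ((N / 2 : ℕ) : ℝ) := by
      have : N ≤ 3 * (N / 2) := by omega
      have : (N:ℝ) ≤ 3 * ((N / 2 : ℕ) : ℝ) := by exact_mod_cast this
      linarith
    have h7 : (1/3:ℝ) * (N:ℝ) ^ (1 - δ) ≤ ((N / 2 : ℕ) : ℝ) ^ (1 - δ) := by
      calc (1/3:ℝ) * (N:ℝ) ^ (1 - δ) ≤ (1/3:ℝ) ^ (1 - δ) * (N:ℝ) ^ (1 - δ) := by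
            apply mul_le_mul_of_nonneg_right _ (Real.rpow_nonneg hN0.le _)
            have := Real.rpow_le_rpow_of_exponent_ge (by norm_num : (0:ℝ) < 1/3) (by norm_num : (1/3:ℝ) ≤ 1)
              (by linarith : 1 - δ ≤ 1)
            simpa using this
        _ = ((N:ℝ) / 3) ^ (1 - δ) := by
            rw [← Real.mul_rpow (by norm_num) hN0.le]
            congr 1
            ring
        _ ≤ _ := Real.rpow_le_rpow (by positivity) h6 (by linarith)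
    have h8 : 4 * N / L = 12 * ((1/3:ℝ) * (N:ℝ) ^ (1 - δ)) := by
      rw [Real.rpow_sub hN0, Real.rpow_one, hL]
      ring
    rw [h8]
    linarith
  · -- f2
    have h6 := RR_card_ge ⌊s / L⌋₊ (Nat.sqrt N)
    have h6' : ((Nat.sqrt N).primeCounting : ℝ) ≤ (⌊s / L⌋₊ : ℝ) + ((RR ⌊s / L⌋₊ (Nat.sqrt N)).card : ℝ) := by
      exact_mod_cast h6
    have h7 : (1/2:ℝ) * s ^ (1 - δ) ≤ (Nat.sqrt N : ℝ) ^ (1 - δ) := by
      calc (1/2:ℝ) * s ^ (1 - δ) ≤ (1/2:ℝ) ^ (1 - δ) * s ^ (1 - δ) :=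
            mul_le_mul_of_nonneg_right hhalf (Real.rpow_nonneg hs0.le _)
        _ = (s / 2) ^ (1 - δ) := by
            rw [← Real.mul_rpow (by norm_num) hs0.le]
            congr 1
            ring
        _ ≤ _ := Real.rpow_le_rpow (by positivity) hRs2 (by linarith)
    have h8 : s / L ≤ s ^ (1 - δ) := by
      rw [Real.rpow_sub hs0, Real.rpow_one]
      have hsδ : 0 < s ^ δ := Real.rpow_pos_of_pos hs0 _
      apply div_le_div_of_nonneg_left hs0.le hsδ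
      apply Real.rpow_le_rpow hs0.le _ hδ.le
      rw [← hss]
      nlinarith
    linarith
  · -- f3
    intro k hk1 hk2
    have hk0 : (0:ℝ) ≤ k := by positivity
    refine (hC k hk1).trans ?_
    have h6 : (k:ℝ) ^ (δ/2) ≤ 2 * (N:ℝ) ^ (δ / 2) := by
      calc (k:ℝ) ^ (δ/2) ≤ (2 * (N:ℝ)) ^ (δ/2) := by
            apply Real.rpow_le_rpow hk0 _ (by positivity)
            exact_mod_cast hk2
        _ = 2 ^ (δ/2) * (N:ℝ) ^ (δ/2) := Real.mul_rpow (by norm_num) hN0.le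
        _ ≤ 2 * (N:ℝ) ^ (δ / 2) := by
            apply mul_le_mul_of_nonneg_right _ (Real.rpow_nonneg hN0.le _)
            calc (2:ℝ) ^ (δ/2) ≤ 2 ^ (1:ℝ) := by
                  apply Real.rpow_le_rpow_of_exponent_le (by norm_num) (by linarith)
              _ = 2 := Real.rpow_one 2
    calc C * (k:ℝ) ^ (δ/2) ≤ C * (2 * (N:ℝ) ^ (δ / 2)) := mul_le_mul_of_nonneg_left h6 hC0.le
      _ = (2 * C) * (N:ℝ) ^ (δ / 2) := by ring
      _ ≤ (N:ℝ) ^ (δ / 2) * (N:ℝ) ^ (δ / 2) := mul_le_mul_of_nonneg_right h4 (Real.rpow_nonneg hN0.le _)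
      _ = L := by
          rw [← Real.rpow_add hN0, hL]
          congr 1
          ring

end Pool.Agent.H408R2.EHLow
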