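import Pool.Agent.H408R2.EHLow.Modu

open Finset

namespace Pool.Agent.H408R2.EHLow

open Pool.Agent.Helper112

def RR (R0 R : ℕ) : Finset ℕ := (Ioc R0 R).filter Nat.Prime

lemma RR_prime (R0 R : ℕ) : ∀ r ∈ RR R0 R, r.Prime := fun _ hr => (mem_filter.mp hr).2
lemma RR_le (R0 R : ℕ) : ∀ r ∈ RR R0 R, r ≤ R := fun _ hr => (mem_Ioc.mp (mem_filter.mp hr).1).2
lemma RR_ge (R0 R : ℕ) : ∀ r ∈ RR R0 R, R0 ≤ r := fun _ hr => (mem_Ioc.mp (mem_filter.mp hr).1).1.le

lemma RR_card_le (R0 R : ℕ) : (RR R0 R).card ≤ R := by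
  refine (card_filter_le _ _).trans ?_
  simp

lemma A_prime (R0 R p : ℕ) (hp : p.Prime) :
    (∑ r ∈ RR R0 R, (1:ℝ) / r) - (if p ∈ RR R0 R then 1 else 0) ≤ A (RR R0 R) p := by
  unfold A
  rw [sum_sub_distrib]
  have : ∑ r ∈ RR R0 R, (if (r:ℤ) ∣ (p:ℤ) then (1:ℝ) else 0) ≤ if p ∈ RR R0 R then 1 else 0 := by
    have h1 : ∀ r ∈ RR R0 R, (if (r:ℤ) ∣ (p:ℤ) then (1:ℝ) else 0) = if r = p then 1 else 0 := by
      intro r hr
      have hrp := RR_prime R0 R r hr
      have : ((r:ℤ) ∣ (p:ℤ)) ↔ r = p := by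
        rw [Int.natCast_dvd_natCast]
        exact Nat.prime_dvd_prime_iff_eq hrp hp
      simp only [this]
    rw [sum_congr rfl h1, sum_ite_eq']
  linarith

lemma main_ge (R0 R N : ℕ) (hN : 1 ≤ N) (hR : 1 ≤ R) :
    (1/2) * ((N / 2).primeCounting : ℝ) * ((RR R0 R).card / R) - (RR R0 R).card ≤
      ∑ p ∈ PP N, c (RR R0 R) N p := by
  have hN0 : (0:ℝ) < N := by exact_mod_cast hN
  have hR0 : (0:ℝ) < R := by exact_mod_cast hR
  set S : ℝ := ∑ r ∈ RR R0 R, (1:ℝ) / r with hS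
  have hS0 : 0 ≤ S := sum_nonneg fun _ _ => by positivity
  have hS1 : ((RR R0 R).card : ℝ) / R ≤ S := by
    rw [hS]
    calc ((RR R0 R).card : ℝ) / R = ∑ r ∈ RR R0 R, (1:ℝ) / R := by
          rw [sum_const, nsmul_eq_mul]; ring
      _ ≤ _ := by
          apply sum_le_sum
          intro r hr
          have hr0 : (0:ℝ) < r := by exact_mod_cast (RR_prime R0 R r hr).pos
          apply one_div_le_one_div_of_le hr0
          exact_mod_cast RR_le R0 R r hr
  have h1 : ∀ p ∈ PP N, w N p * S - (if p ∈ RR R0 R then 1 else 0) ≤ c (RR R0 R) N p := by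
    intro p hp
    have hpp : p.Prime := (mem_filter.mp hp).2
    unfold c
    have h2 := A_prime R0 R p hpp
    have h3 := mul_le_mul_of_nonneg_left h2 (w_nonneg N p)
    refine le_trans ?_ h3
    rw [mul_sub]
    have : w N p * (if p ∈ RR R0 R then (1:ℝ) else 0) ≤ (if p ∈ RR R0 R then (1:ℝ) else 0) := by
      split_ifs
      · rw [mul_one]; exact w_le_one N p
      · simp
    linarith
  refine le_trans ?_ (sum_le_sum h1)
  rw [sum_sub_distrib, ← sum_mul]
  have h4 : ∑ p ∈ PP N, (if p ∈ RR R0 R then (1:ℝ) else 0) ≤ (RR R0 R).card := by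
    rw [← sum_filter, sum_const, nsmul_eq_mul, mul_one]
    have : ((PP N).filter (fun p => p ∈ RR R0 R)).card ≤ (RR R0 R).card := by
      apply card_le_card
      intro p hp
      exact (mem_filter.mp hp).2
    exact_mod_cast this
  have h5 : (1/2) * ((N / 2).primeCounting : ℝ) ≤ ∑ p ∈ PP N, w N (p:ℤ) := by
    have hsub : PP (N / 2) ⊆ PP N := by
      intro p hp
      unfold PP at hp ⊢
      rw [mem_filter, mem_Icc] at hp ⊢
      exact ⟨⟨hp.1.1, by omega⟩, hp.2⟩
    refine le_trans ?_ (sum_le_sum_of_subset_of_nonneg hsub (fun _ _ _ => w_nonneg _ _))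
    rw [← PP_card]
    calc (1/2) * ((PP (N/2)).card : ℝ) = ∑ p ∈ PP (N / 2), (1/2:ℝ) := by
          rw [sum_const, nsmul_eq_mul]; ring
      _ ≤ _ := by
          apply sum_le_sum
          intro p hp
          have hp2 := mem_Icc.mp (PP_sub _ hp)
          have hp3 : 2 * p ≤ N := by omega
          unfold w
          apply le_max_of_le_right
          rw [Int.cast_natCast, abs_of_nonneg (by positivity)]
          have : (p:ℝ) / N ≤ 1/2 := by
            rw [div_le_iff₀ hN0]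
            have : (2:ℝ) * p ≤ N := by exact_mod_cast hp3
            linarith
          linarith
  have h6 : (1/2) * ((N / 2).primeCounting : ℝ) * ((RR R0 R).card / R) ≤ (∑ p ∈ PP N, w N (p:ℤ)) * S :=
    mul_le_mul h5 hS1 (by positivity) (sum_nonneg fun _ _ => w_nonneg _ _)
  linarith

lemma totient_tau (q : ℕ) (hq : 1 ≤ q) : q ≤ q.divisors.card * q.totient := by
  conv_lhs => rw [← Nat.sum_totient q]
  rw [← smul_eq_mul, ← sum_const]
  apply sum_le_sum
  intro d hd
  exact Nat.le_of_dvd (Nat.totient_pos.mpr hq) (Nat.totient_dvd_of_dvd (Nat.dvd_of_mem_divisors hd))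

/-- the hypotheses on the parameters -/
structure Good (N R R0 : ℕ) (L s : ℝ) : Prop where
  hs : s ^ 2 = N
  hs0 : 0 < s
  hR : (R:ℝ) ≤ s
  hR0 : s / (2 * L) ≤ R0
  hR01 : 1 ≤ R0
  hL : 100 ≤ L
  hLs : L ^ 10 ≤ s
  f1 : 4 * N / L ≤ ((N / 2).primeCounting : ℝ)
  f2 : s / L ≤ ((RR R0 R).card : ℝ)
  f3 : ∀ k : ℕ, 1 ≤ k → k ≤ 2 * N → (k.divisors.card : ℝ) ≤ L

variable {N R R0 : ℕ} {L s : ℝ}

lemma Good.N1 (g : Good N R R0 L s) : 1 ≤ N := by
  by_contra h
  have : N = 0 := by omega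
  subst this
  have := g.hs
  have h0 := g.hs0
  norm_num at this
  linarith

lemma Good.s_ge (g : Good N R R0 L s) : 1 ≤ s :=
  le_trans (one_le_pow₀ (by linarith [g.hL])) g.hLs

lemma Good.pow_le (g : Good N R R0 L s) (k : ℕ) (hk : k ≤ 10) : L ^ k ≤ s :=
  le_trans (pow_le_pow_right₀ (by linarith [g.hL]) hk) g.hLs

lemma Good.R1 (g : Good N R R0 L s) : 1 ≤ R := by
  by_contra h
  have h0 : R = 0 := by omega
  have h2 := g.f2
  have h3 : (RR R0 R).card = 0 := by
    have := RR_card_le R0 R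
    omega
  rw [h3] at h2
  have hL := g.hL
  have hs0 := g.hs0
  have : 0 < s / L := by positivity
  simp at h2
  linarith

lemma Good.main (g : Good N R R0 L s) : N / L ^ 2 ≤ ∑ p ∈ PP N, c (RR R0 R) N p := by
  have hN1 := g.N1
  have hR1 := g.R1
  refine le_trans ?_ (main_ge R0 R N hN1 hR1)
  have hL := g.hL
  have hL0 : 0 < L := by linarith
  have hs0 := g.hs0
  have hs := g.hs
  have hRr : (0:ℝ) < R := by exact_mod_cast hR1
  have hc1 : ((RR R0 R).card : ℝ) ≤ s := by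
    have : ((RR R0 R).card : ℝ) ≤ R := by exact_mod_cast RR_card_le R0 R
    linarith [g.hR]
  have hc2 : 1 / L ≤ ((RR R0 R).card : ℝ) / R := by
    rw [div_le_div_iff₀ hL0 hRr]
    have h2 := g.f2
    rw [div_le_iff₀ hL0] at h2
    linarith [g.hR]
  have h1 : (1/2) * (4 * N / L) * (1 / L) ≤ (1/2) * ((N / 2).primeCounting : ℝ) * ((RR R0 R).card / R) := by
    apply mul_le_mul _ hc2 (by positivity) (by positivity)
    exact mul_le_mul_of_nonneg_left g.f1 (by norm_num)
  have h2 : s ≤ N / L ^ 2 := by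
    rw [le_div_iff₀ (by positivity), ← hs]
    have := g.pow_le 2 (by norm_num)
    nlinarith
  have h3 : (1/2) * (4 * N / L) * (1 / L) = 2 * (N / L ^ 2) := by
    field_simp
    ring
  linarith

lemma Good.H_le (g : Good N R R0 L s) (β : ℝ) : H (RR R0 R) N β ≤ 24 * L * s := by
  have hL := g.hL
  have hL0 : 0 < L := by linarith
  have hs0 := g.hs0
  have hs := g.hs
  refine (EHLow.H_le N R R0 g.N1 g.hR01 _ (RR_prime R0 R) (RR_le R0 R) (RR_ge R0 R) β).trans ?_
  have hR00 : (0:ℝ) < R0 := by exact_mod_cast g.hR01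
  rw [div_le_iff₀ hR00]
  have h1 : (R:ℝ) ^ 2 ≤ N := by
    rw [← hs]
    exact pow_le_pow_left₀ (by positivity) g.hR 2
  have h2 := g.hR0
  rw [div_le_iff₀ (by positivity)] at h2
  nlinarith

lemma Good.G0q (g : Good N R R0 L s) (q : ℕ) (hq1 : 1 ≤ q) (hqN : q ≤ N) (hq : s * L ^ 8 ≤ q) :
    -G0 (RR R0 R) N q ≤ 2 * s := by
  have hL := g.hL
  have hL0 : 0 < L := by linarith
  have hs0 := g.hs0
  have hs := g.hs
  have hq0 : (0:ℝ) < q := by exact_mod_cast hq1
  refine (G0_le _ (RR_prime R0 R) N q g.N1 hq1).trans ?_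
  have hc1 : ((RR R0 R).card : ℝ) ≤ s := by
    have : ((RR R0 R).card : ℝ) ≤ R := by exact_mod_cast RR_card_le R0 R
    linarith [g.hR]
  have hc2 : (((RR R0 R).filter (fun r => r ∣ q)).card : ℝ) ≤ L := by
    have h1 : ((RR R0 R).filter (fun r => r ∣ q)).card ≤ q.divisors.card := by
      apply card_le_card
      intro r hr
      rw [Nat.mem_divisors]
      exact ⟨(mem_filter.mp hr).2, by omega⟩
    have h2 := g.f3 q hq1 (by omega)
    exact le_trans (by exact_mod_cast h1) h2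
  have h3 : L * ((N:ℝ) / q) ≤ s := by
    rw [mul_div_assoc', div_le_iff₀ hq0, ← hs]
    have h4 : L ≤ L ^ 8 := by
      calc L = L ^ 1 := (pow_one L).symm
        _ ≤ L ^ 8 := pow_le_pow_right₀ (by linarith) (by norm_num)
    nlinarith
  have h5 : (((RR R0 R).filter (fun r => r ∣ q)).card : ℝ) * ((N:ℝ) / q) ≤ L * ((N:ℝ) / q) :=
    mul_le_mul_of_nonneg_right hc2 (by positivity)
  linarith

lemma Good.W_le (g : Good N R R0 L s) (q : ℕ) (hq1 : 1 ≤ q) (hqN : q ≤ N) (hq : s * L ^ 8 ≤ q) :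
    W (RR R0 R) N q ≤ 48 * L * N := by
  have hL := g.hL
  have hs0 := g.hs0
  have h1 := EHLow.W_le _ (RR_prime R0 R) N q g.N1 hq1 _ g.H_le
  have h2 := g.G0q q hq1 hqN hq
  refine h1.trans ?_
  calc 24 * L * s * -G0 (RR R0 R) N q ≤ 24 * L * s * (2 * s) :=
        mul_le_mul_of_nonneg_left h2 (by positivity)
    _ = 48 * L * s ^ 2 := by ring
    _ = _ := by rw [g.hs]

lemma Good.mean (g : Good N R R0 L s) (q : ℕ) (hq1 : 1 ≤ q) (hqN : q ≤ N) (hq : s * L ^ 8 ≤ q) :
    ((N.primeCounting : ℝ) / (q.totient : ℝ)) * ∑ d ∈ q.divisors, (-G0 (RR R0 R) N d) ≤ N / (8 * L ^ 2) := by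
  have hL := g.hL
  have hL0 : 0 < L := by linarith
  have hs0 := g.hs0
  have hs := g.hs
  have hN0 : (0:ℝ) < N := by rw [← hs]; positivity
  have hq0 : (0:ℝ) < q := by exact_mod_cast hq1
  have hφ : (0:ℝ) < (q.totient : ℝ) := by exact_mod_cast Nat.totient_pos.mpr hq1
  have hc1 : ((RR R0 R).card : ℝ) ≤ s := by
    have : ((RR R0 R).card : ℝ) ≤ R := by exact_mod_cast RR_card_le R0 R
    linarith [g.hR]
  have hR00 : (0:ℝ) < R0 := by exact_mod_cast g.hR01
  have hτ := g.f3 q hq1 (by omega)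
  have hd : ∀ d ∈ q.divisors, -G0 (RR R0 R) N d ≤ 3 * L ^ 2 * s := by
    intro d hd
    have hd1 : 1 ≤ d := Nat.pos_of_mem_divisors hd
    have hdq : d ≤ q := Nat.divisor_le hd
    have hd0 : (0:ℝ) < d := by exact_mod_cast hd1
    refine (G0_le _ (RR_prime R0 R) N d g.N1 hd1).trans ?_
    have h1 : (((RR R0 R).filter (fun r => r ∣ d)).card : ℝ) * ((N:ℝ) / d) ≤ 2 * L ^ 2 * s := by
      rcases Finset.eq_empty_or_nonempty ((RR R0 R).filter (fun r => r ∣ d)) with he | ⟨r, hr⟩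
      · rw [he]
        simp only [card_empty, Nat.cast_zero, zero_mul]
        positivity
      · rw [mem_filter] at hr
        have hrd : r ≤ d := Nat.le_of_dvd hd1 hr.2
        have hR0d : (R0:ℝ) ≤ d := by exact_mod_cast (RR_ge R0 R r hr.1).trans hrd
        have h2 : (N:ℝ) / d ≤ 2 * L * s := by
          rw [div_le_iff₀ hd0, ← hs]
          have h3 := g.hR0
          rw [div_le_iff₀ (by positivity)] at h3
          have h3' : s ≤ (d:ℝ) * (2 * L) :=
            h3.trans (mul_le_mul_of_nonneg_right hR0d (by positivity))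
          nlinarith
        have h4 : (((RR R0 R).filter (fun r => r ∣ d)).card : ℝ) ≤ L := by
          have h5 : ((RR R0 R).filter (fun r => r ∣ d)).card ≤ d.divisors.card := by
            apply card_le_card
            intro r hr
            rw [Nat.mem_divisors]
            exact ⟨(mem_filter.mp hr).2, by omega⟩
          exact le_trans (by exact_mod_cast h5) (g.f3 d hd1 (by omega))
        calc (((RR R0 R).filter (fun r => r ∣ d)).card : ℝ) * ((N:ℝ) / d) ≤ L * (2 * L * s) :=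
              mul_le_mul h4 h2 (by positivity) hL0.le
          _ = _ := by ring
    have h2 : s ≤ L ^ 2 * s := by
      have : 1 ≤ L ^ 2 := one_le_pow₀ (by linarith)
      nlinarith
    linarith
  have hsum : ∑ d ∈ q.divisors, (-G0 (RR R0 R) N d) ≤ L * (3 * L ^ 2 * s) := by
    calc ∑ d ∈ q.divisors, (-G0 (RR R0 R) N d) ≤ ∑ d ∈ q.divisors, (3 * L ^ 2 * s) := sum_le_sum hd
      _ = (q.divisors.card : ℝ) * (3 * L ^ 2 * s) := by rw [sum_const, nsmul_eq_mul]
      _ ≤ _ := mul_le_mul_of_nonneg_right hτ (by positivity)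
  have hμ : (N.primeCounting : ℝ) / (q.totient : ℝ) ≤ N * L / q := by
    rw [div_le_div_iff₀ hφ hq0]
    have h1 : (N.primeCounting : ℝ) ≤ N := by
      rw [← PP_card]
      have : (PP N).card ≤ N := by
        refine (card_le_card (PP_sub N)).trans ?_
        simp
      exact_mod_cast this
    have h2 : (q:ℝ) ≤ L * q.totient := by
      have h3 : (q:ℝ) ≤ (q.divisors.card : ℝ) * q.totient := by exact_mod_cast totient_tau q hq1
      exact h3.trans (mul_le_mul_of_nonneg_right hτ hφ.le)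
    calc (N.primeCounting : ℝ) * q ≤ N * (L * q.totient) := mul_le_mul h1 h2 hq0.le hN0.le
      _ = _ := by ring
  calc ((N.primeCounting : ℝ) / (q.totient : ℝ)) * ∑ d ∈ q.divisors, (-G0 (RR R0 R) N d)
      ≤ ((N.primeCounting : ℝ) / (q.totient : ℝ)) * (L * (3 * L ^ 2 * s)) :=
        mul_le_mul_of_nonneg_left hsum (by positivity)
    _ ≤ (N * L / q) * (L * (3 * L ^ 2 * s)) := mul_le_mul_of_nonneg_right hμ (by positivity)
    _ = 3 * N * L ^ 4 * s / q := by ring
    _ ≤ 3 * N * L ^ 4 * s / (s * L ^ 8) := by gcongr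
    _ = 3 * N / L ^ 4 := by field_simp
    _ ≤ N / (8 * L ^ 2) := by
        rw [div_le_div_iff₀ (by positivity) (by positivity)]
        have : 24 ≤ L ^ 2 := by nlinarith
        have h2 : 0 ≤ (N:ℝ) * L ^ 2 := by positivity
        nlinarith

lemma Good.D_ge (g : Good N R R0 L s) (q : ℕ) [NeZero q] (hqN : q ≤ N) (hq : s * L ^ 8 ≤ q)
    (hV : Vr N q ≤ N / L ^ 10) : N / (2 * L ^ 2) ≤ |Dq (RR R0 R) N q| := by
  have hq1 : 1 ≤ q := Nat.one_le_iff_ne_zero.mpr (NeZero.ne q)
  have hL := g.hL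
  have hL0 : 0 < L := by linarith
  have hs0 := g.hs0
  have hs := g.hs
  have hN0 : (0:ℝ) < N := by rw [← hs]; positivity
  have h1 := key (RR R0 R) (RR_prime R0 R) N q g.N1
  have h2 := g.main
  have h3 := g.mean q hq1 hqN hq
  have hW := g.W_le q hq1 hqN hq
  have hW0 : 0 ≤ W (RR R0 R) N q := by
    rw [← G_sq]; exact sum_nonneg fun _ _ => sq_nonneg _
  have hV0 : 0 ≤ Vr N q := sum_nonneg fun _ _ => sq_nonneg _
  have hτ := g.f3 q hq1 (by omega)
  have h4 : Real.sqrt (Vr N q * W (RR R0 R) N q) ≤ N / (8 * L ^ 2) := by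
    apply Real.sqrt_le_iff.mpr
    refine ⟨by positivity, ?_⟩
    calc Vr N q * W (RR R0 R) N q ≤ (N / L ^ 10) * (48 * L * N) :=
          mul_le_mul hV hW hW0 (by positivity)
      _ = 48 * N ^ 2 / L ^ 9 := by field_simp
      _ ≤ (N / (8 * L ^ 2)) ^ 2 := by
          rw [div_pow, div_le_div_iff₀ (by positivity) (by positivity)]
          have h5 : 3072 ≤ L ^ 5 := by
            calc (3072:ℝ) ≤ 100 ^ 5 := by norm_num
              _ ≤ L ^ 5 := pow_le_pow_left₀ (by norm_num) hL 5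
          have h6 : 0 ≤ (N:ℝ) ^ 2 * L ^ 4 := by positivity
          have h7 := mul_le_mul_of_nonneg_left h5 h6
          nlinarith
  have h5 : Real.sqrt ((q.divisors.card : ℝ) * W (RR R0 R) N q) ≤ N / (8 * L ^ 2) := by
    apply Real.sqrt_le_iff.mpr
    refine ⟨by positivity, ?_⟩
    calc (q.divisors.card : ℝ) * W (RR R0 R) N q ≤ L * (48 * L * N) :=
          mul_le_mul hτ hW hW0 hL0.le
      _ = 48 * L ^ 2 * N := by ring
      _ ≤ (N / (8 * L ^ 2)) ^ 2 := by
          rw [div_pow, le_div_iff₀ (by positivity)]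
          have h5 := g.pow_le 8 (by norm_num)
          have h6 : (3072:ℝ) ≤ L ^ 2 := by nlinarith
          have h7 : 3072 * L ^ 6 ≤ s := by
            calc 3072 * L ^ 6 ≤ L ^ 2 * L ^ 6 := mul_le_mul_of_nonneg_right h6 (by positivity)
              _ = L ^ 8 := by ring
              _ ≤ s := h5
          have h8 : s ≤ N := by rw [← hs]; nlinarith [g.s_ge]
          have h9 : 3072 * L ^ 6 ≤ N := h7.trans h8
          have := mul_le_mul_of_nonneg_left h9 hN0.le
          nlinarith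
  have h6 : (N:ℝ) / L ^ 2 = 8 * (N / (8 * L ^ 2)) := by field_simp
  have h7 : (N:ℝ) / (2 * L ^ 2) = 4 * (N / (8 * L ^ 2)) := by field_simp; ring
  have h8 : 0 < (N:ℝ) / (8 * L ^ 2) := by positivity
  linarith

end Pool.Agent.H408R2.EHLow
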