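import Pool.Agent.H408R2.EHLow.Basic

open Finset

namespace Pool.Agent.H408R2.EHLow

open Pool.Agent.Helper112

/-- `∑_{n ≡ b (q)} c(n)` -/
noncomputable def G (Rs : Finset ℕ) (N q : ℕ) (b : ZMod q) : ℝ :=
  ∑ n ∈ Icc (-(N:ℤ)) N, if (n : ZMod q) = b then c Rs N n else 0

noncomputable def G0 (Rs : Finset ℕ) (N d : ℕ) : ℝ :=
  ∑ n ∈ Icc (-(N:ℤ)) N, if (d:ℤ) ∣ n then c Rs N n else 0

noncomputable def W (Rs : Finset ℕ) (N q : ℕ) : ℝ :=
  ∑ n ∈ Icc (-(N:ℤ)) N, ∑ n' ∈ Icc (-(N:ℤ)) N,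
    if (q:ℤ) ∣ n - n' then c Rs N n * c Rs N n' else 0

lemma G_sq (Rs : Finset ℕ) (N q : ℕ) [NeZero q] :
    ∑ b : ZMod q, (G Rs N q b) ^ 2 = W Rs N q := by
  unfold G W
  have h1 : ∀ b : ZMod q, (∑ n ∈ Icc (-(N:ℤ)) N, if (n : ZMod q) = b then c Rs N n else 0) ^ 2 =
      ∑ n ∈ Icc (-(N:ℤ)) N, ∑ n' ∈ Icc (-(N:ℤ)) N,
        (if (n : ZMod q) = b then c Rs N n else 0) * (if (n' : ZMod q) = b then c Rs N n' else 0) := by
    intro b
    rw [pow_two, sum_mul_sum]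
  rw [sum_congr rfl (fun b _ => h1 b), sum_comm]
  apply sum_congr rfl
  intro n _
  rw [sum_comm]
  apply sum_congr rfl
  intro n' _
  rw [sum_eq_single (n : ZMod q)]
  · have hiff : ((n' : ZMod q) = (n : ZMod q)) ↔ (q:ℤ) ∣ n - n' := by
      rw [ZMod.intCast_eq_intCast_iff_dvd_sub]
    by_cases h : (q:ℤ) ∣ n - n'
    · rw [if_pos rfl, if_pos (hiff.mpr h), if_pos h]
    · rw [if_pos rfl, if_neg (fun h' => h (hiff.mp h')), if_neg h, mul_zero]
  · intro b _ hb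
    rw [if_neg (fun h => hb h.symm), zero_mul]
  · intro h; exact absurd (mem_univ _) h

lemma W_fourier (Rs : Finset ℕ) (hRs : ∀ r ∈ Rs, r.Prime) (N q : ℕ) (hN : 1 ≤ N) (hq : 1 ≤ q) :
    (q:ℝ) * W Rs N q = ∑ k ∈ range q, (H Rs N (k / q)) ^ 2 := by
  have h : (((q:ℝ) * W Rs N q : ℝ) : ℂ) = ((∑ k ∈ range q, (H Rs N (k / q)) ^ 2 : ℝ) : ℂ) := by
    have h1 : ∀ k ∈ range q, (((H Rs N (k / q)) ^ 2 : ℝ) : ℂ) =
        ∑ n ∈ Icc (-(N:ℤ)) N, ∑ n' ∈ Icc (-(N:ℤ)) N,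
          (c Rs N n : ℂ) * (c Rs N n' : ℂ) * ee (((n - n' : ℤ):ℝ) * (k / q)) := by
      intro k _
      have e1 := chat Rs hRs N hN ((k:ℝ) / q)
      have e2 : ∑ n ∈ Icc (-(N:ℤ)) N, (c Rs N n : ℂ) * ee (-((n:ℝ) * ((k:ℝ) / q))) =
          -(H Rs N ((k:ℝ) / q) : ℂ) := by
        have := congrArg (starRingEnd ℂ) e1
        rw [map_sum, map_neg, Complex.conj_ofReal] at this
        rw [← this]
        apply sum_congr rfl
        intro n _
        rw [map_mul, Complex.conj_ofReal, ls_conj_ee]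
      have e3 : (((H Rs N (k / q)) ^ 2 : ℝ) : ℂ) =
          (-(H Rs N ((k:ℝ) / q) : ℂ)) * (-(H Rs N ((k:ℝ) / q) : ℂ)) := by
        push_cast; ring
      rw [e3]
      nth_rewrite 1 [← e1]
      rw [← e2, sum_mul_sum]
      apply sum_congr rfl
      intro n _
      apply sum_congr rfl
      intro n' _
      have : ee (((n - n' : ℤ):ℝ) * (k / q)) = ee ((n:ℝ) * ((k:ℝ) / q)) * ee (-((n':ℝ) * ((k:ℝ) / q))) := by
        rw [← ls_ee_add]
        congr 1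
        push_cast
        ring
      rw [this]
      ring
    rw [Complex.ofReal_sum, sum_congr rfl h1]
    have e4 : ∑ k ∈ range q, ∑ n ∈ Icc (-(N:ℤ)) N, ∑ n' ∈ Icc (-(N:ℤ)) N,
          (c Rs N n : ℂ) * (c Rs N n' : ℂ) * ee (((n - n' : ℤ):ℝ) * (k / q)) =
        ∑ n ∈ Icc (-(N:ℤ)) N, ∑ n' ∈ Icc (-(N:ℤ)) N, ∑ k ∈ range q,
          (c Rs N n : ℂ) * (c Rs N n' : ℂ) * ee (((n - n' : ℤ):ℝ) * (k / q)) := by
      rw [sum_comm]
      apply sum_congr rfl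
      intro n _
      rw [sum_comm]
    rw [e4]
    unfold W
    rw [Complex.ofReal_mul, Complex.ofReal_sum, mul_sum]
    apply sum_congr rfl
    intro n _
    rw [Complex.ofReal_sum, mul_sum]
    apply sum_congr rfl
    intro n' _
    rw [← mul_sum, orth q hq (n - n')]
    split_ifs with hd
    · push_cast; ring
    · simp
  exact_mod_cast h

lemma G0_fourier (Rs : Finset ℕ) (hRs : ∀ r ∈ Rs, r.Prime) (N d : ℕ) (hN : 1 ≤ N) (hd : 1 ≤ d) :
    (d:ℝ) * (-G0 Rs N d) = ∑ k ∈ range d, H Rs N (k / d) := by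
  have h : (((d:ℝ) * (-G0 Rs N d) : ℝ) : ℂ) = ((∑ k ∈ range d, H Rs N (k / d) : ℝ) : ℂ) := by
    have h1 : ∀ k ∈ range d, ((H Rs N (k / d) : ℝ) : ℂ) =
        - ∑ n ∈ Icc (-(N:ℤ)) N, (c Rs N n : ℂ) * ee ((n:ℝ) * (k / d)) := by
      intro k _
      rw [chat Rs hRs N hN ((k:ℝ) / d), neg_neg]
    rw [Complex.ofReal_sum, sum_congr rfl h1, sum_neg_distrib, sum_comm]
    unfold G0
    push_cast
    rw [mul_neg, mul_sum]
    congr 1
    apply sum_congr rfl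
    intro n _
    rw [← mul_sum, orth d hd n]
    split_ifs with hdn
    · ring
    · simp
  exact_mod_cast h

lemma G0_nonpos (Rs : Finset ℕ) (hRs : ∀ r ∈ Rs, r.Prime) (N d : ℕ) (hN : 1 ≤ N) (hd : 1 ≤ d) :
    0 ≤ -G0 Rs N d := by
  have h := G0_fourier Rs hRs N d hN hd
  have h1 : 0 ≤ ∑ k ∈ range d, H Rs N (k / d) := sum_nonneg fun k _ => H_nonneg _ _ _
  rw [← h] at h1
  have hd0 : (0:ℝ) < d := by exact_mod_cast hd
  exact nonneg_of_mul_nonneg_right (by linarith) hd0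

lemma W_le (Rs : Finset ℕ) (hRs : ∀ r ∈ Rs, r.Prime) (N q : ℕ) (hN : 1 ≤ N) (hq : 1 ≤ q)
    (B : ℝ) (hB : ∀ β, H Rs N β ≤ B) : W Rs N q ≤ B * (-G0 Rs N q) := by
  have hq0 : (0:ℝ) < q := by exact_mod_cast hq
  have h1 := W_fourier Rs hRs N q hN hq
  have h2 := G0_fourier Rs hRs N q hN hq
  have h3 : (q:ℝ) * W Rs N q ≤ (q:ℝ) * (B * (-G0 Rs N q)) := by
    rw [h1]
    calc ∑ k ∈ range q, (H Rs N (k / q)) ^ 2 ≤ ∑ k ∈ range q, B * H Rs N (k / q) := by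
          apply sum_le_sum
          intro k _
          rw [pow_two]
          exact mul_le_mul_of_nonneg_right (hB _) (H_nonneg _ _ _)
      _ = B * ((q:ℝ) * (-G0 Rs N q)) := by rw [← mul_sum, h2]
      _ = _ := by ring
  exact le_of_mul_le_mul_left h3 hq0

/-- `∑_{d | n} w(n)` -/
noncomputable def Z (N d : ℕ) : ℝ := ∑ n ∈ Icc (-(N:ℤ)) N, if (d:ℤ) ∣ n then w N n else 0

lemma Z_fourier (N d : ℕ) (hN : 1 ≤ N) (hd : 1 ≤ d) :
    (d:ℝ) * Z N d = ∑ k ∈ range d, F N (k / d) := by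
  have h : (((d:ℝ) * Z N d : ℝ) : ℂ) = ((∑ k ∈ range d, F N (k / d) : ℝ) : ℂ) := by
    have h1 : ∀ k ∈ range d, ((F N (k / d) : ℝ) : ℂ) =
        ∑ n ∈ Icc (-(N:ℤ)) N, (w N n : ℂ) * ee ((n:ℝ) * (k / d)) := by
      intro k _
      rw [fejer N hN ((k:ℝ) / d)]
    rw [Complex.ofReal_sum, sum_congr rfl h1, sum_comm]
    unfold Z
    push_cast
    rw [mul_sum]
    apply sum_congr rfl
    intro n _
    rw [← mul_sum, orth d hd n]
    split_ifs with hdn
    · ring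
    · simp
  exact_mod_cast h

lemma F_zero (N : ℕ) (hN : 1 ≤ N) : F N 0 = N := by
  have hN0 : (N:ℝ) ≠ 0 := by positivity
  unfold F Dk
  simp only [mul_zero, ls_ee_zero, sum_const, Nat.card_Icc, add_tsub_cancel_right, nsmul_eq_mul,
    mul_one, Complex.norm_natCast]
  field_simp

lemma Z_ge (N d : ℕ) (hN : 1 ≤ N) (hd : 1 ≤ d) : (N:ℝ) / d ≤ Z N d := by
  have hd0 : (0:ℝ) < d := by exact_mod_cast hd
  have h := Z_fourier N d hN hd
  rw [div_le_iff₀ hd0, mul_comm, h]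
  calc (N:ℝ) = F N ((0:ℕ) / d) := by simp [F_zero N hN]
    _ ≤ ∑ k ∈ range d, F N (k / d) :=
        single_le_sum (f := fun k : ℕ => F N ((k:ℝ) / d)) (fun k _ => F_nonneg _ _)
          (mem_range.mpr hd)

lemma sum_Icc_int_real (N : ℕ) (f : ℤ → ℝ) :
    ∑ n ∈ Icc (-(N:ℤ)) N, f n = f 0 + ∑ i ∈ Icc 1 N, (f i + f (-(i:ℤ))) := by
  have := sum_Icc_int N (fun n => (f n : ℂ))
  exact_mod_cast this

lemma sum_dvd (N d : ℕ) (hd : 1 ≤ d) (f : ℕ → ℝ) :
    ∑ i ∈ Icc 1 N, (if d ∣ i then f i else 0) = ∑ l ∈ Icc 1 (N / d), f (d * l) := by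
  rw [← sum_filter]
  symm
  apply sum_bij (fun l _ => d * l)
  · intro l hl
    rw [mem_Icc] at hl
    rw [mem_filter, mem_Icc]
    refine ⟨⟨Nat.mul_pos hd hl.1, ?_⟩, dvd_mul_right _ _⟩
    exact (Nat.mul_le_mul_left d hl.2).trans (Nat.mul_div_le N d)
  · intro a _ b _ h
    exact Nat.eq_of_mul_eq_mul_left hd h
  · intro i hi
    rw [mem_filter, mem_Icc] at hi
    obtain ⟨⟨h1, h2⟩, l, rfl⟩ := hi
    refine ⟨l, ?_, rfl⟩
    rw [mem_Icc]
    refine ⟨?_, ?_⟩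
    · rcases Nat.eq_zero_or_pos l with h | h
      · subst h; simp at h1
      · exact h
    · rw [Nat.le_div_iff_mul_le hd, mul_comm]; exact h2
  · intro l _; rfl

lemma sum_lin (m : ℕ) (t : ℝ) : ∑ l ∈ Icc 1 m, (1 - t * l) = m - t * (m * (m + 1) / 2) := by
  induction m with
  | zero => simp
  | succ m ih =>
    rw [Finset.sum_Icc_succ_top (by omega), ih]
    push_cast
    ring

lemma Z_le (N d : ℕ) (hN : 1 ≤ N) (hd : 1 ≤ d) : Z N d ≤ (N:ℝ) / d + 1 := by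
  have hd0 : (0:ℝ) < d := by exact_mod_cast hd
  have hN0 : (0:ℝ) < N := by exact_mod_cast hN
  unfold Z
  rw [sum_Icc_int_real]
  have h1 : ∀ i ∈ Icc 1 N, ((if (d:ℤ) ∣ (i:ℤ) then w N (i:ℤ) else 0) +
      (if (d:ℤ) ∣ (-(i:ℤ)) then w N (-(i:ℤ)) else 0)) =
      2 * (if d ∣ i then (1 - (i:ℝ) / N) else 0) := by
    intro i hi
    rw [mem_Icc] at hi
    have e1 : w N (i:ℤ) = 1 - (i:ℝ) / N := by
      rw [w_eq N hN _ (by rw [mem_Icc]; omega)]
      rw [Int.cast_natCast, abs_of_nonneg (by positivity)]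
      field_simp
    have e2 : w N (-(i:ℤ)) = 1 - (i:ℝ) / N := by
      rw [w_eq N hN _ (by rw [mem_Icc]; omega)]
      rw [Int.cast_neg, Int.cast_natCast, abs_neg, abs_of_nonneg (by positivity)]
      field_simp
    simp only [dvd_neg, Int.natCast_dvd_natCast, e1, e2]
    split_ifs <;> ring
  rw [sum_congr rfl h1, ← mul_sum, sum_dvd N d hd (fun i => 1 - (i:ℝ) / N)]
  have h2 : ∑ l ∈ Icc 1 (N / d), (1 - (((d * l : ℕ)) : ℝ) / N) =
      ∑ l ∈ Icc 1 (N / d), (1 - ((d:ℝ) / N) * l) := by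
    apply sum_congr rfl
    intro l _
    push_cast
    ring
  rw [h2, sum_lin]
  have h3 : (if (d:ℤ) ∣ 0 then w N 0 else 0) = 1 := by
    rw [if_pos (dvd_zero _)]
    unfold w
    simp
  rw [h3]
  set m : ℝ := ((N / d : ℕ) : ℝ) with hm
  have hm0 : 0 ≤ m := by positivity
  have key : 2 * (m - d / N * (m * (m + 1) / 2)) ≤ (N:ℝ) / d := by
    rw [le_div_iff₀ hd0]
    have : 2 * (m - d / N * (m * (m + 1) / 2)) * d = (2 * m * N * d - d ^ 2 * (m * (m + 1))) / N := by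
      field_simp
    rw [this, div_le_iff₀ hN0]
    nlinarith [sq_nonneg ((N:ℝ) - m * d), mul_nonneg hm0 (sq_nonneg (d:ℝ))]
  linarith

lemma G0_le (Rs : Finset ℕ) (hRs : ∀ r ∈ Rs, r.Prime) (N d : ℕ) (hN : 1 ≤ N) (hd : 1 ≤ d) :
    -G0 Rs N d ≤ (Rs.card : ℝ) + ((Rs.filter (fun r => r ∣ d)).card : ℝ) * ((N:ℝ) / d) := by
  have hd0 : (0:ℝ) < d := by exact_mod_cast hd
  have h1 : -G0 Rs N d = ∑ r ∈ Rs, ∑ n ∈ Icc (-(N:ℤ)) N,
      (if (d:ℤ) ∣ n then w N n * ((if (r:ℤ) ∣ n then 1 else 0) - 1 / (r:ℝ)) else 0) := by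
    unfold G0
    rw [sum_comm, ← sum_neg_distrib]
    apply sum_congr rfl
    intro n _
    split_ifs with h
    · unfold c A
      rw [mul_sum, ← sum_neg_distrib]
      apply sum_congr rfl
      intro r _
      ring
    · simp
  rw [h1]
  have h2 : ∀ r ∈ Rs, ∑ n ∈ Icc (-(N:ℤ)) N,
      (if (d:ℤ) ∣ n then w N n * ((if (r:ℤ) ∣ n then 1 else 0) - 1 / (r:ℝ)) else 0) ≤
      1 + (if r ∣ d then (N:ℝ) / d else 0) := by
    intro r hr
    have hrp := hRs r hr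
    have hr0 : (0:ℝ) < r := by exact_mod_cast hrp.pos
    have hr1 : (1:ℝ) / r ≤ 1 := by
      rw [div_le_one hr0]; exact_mod_cast hrp.one_lt.le
    split_ifs with hrd
    · calc ∑ n ∈ Icc (-(N:ℤ)) N,
          (if (d:ℤ) ∣ n then w N n * ((if (r:ℤ) ∣ n then 1 else 0) - 1 / (r:ℝ)) else 0)
          ≤ ∑ n ∈ Icc (-(N:ℤ)) N, (if (d:ℤ) ∣ n then w N n else 0) := by
            apply sum_le_sum
            intro n _
            split_ifs with h h'
            · have := w_nonneg N n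
              have h5 : (1:ℝ) - 1 / r ≤ 1 := by
                have : 0 ≤ (1:ℝ) / r := by positivity
                linarith
              nlinarith
            · have := w_nonneg N n
              have h5 : (0:ℝ) - 1 / r ≤ 1 := by
                have : 0 ≤ (1:ℝ) / r := by positivity
                linarith
              nlinarith
            · exact le_refl _
        _ = Z N d := rfl
        _ ≤ _ := by rw [add_comm]; exact Z_le N d hN hd
    · have hcop : r.Coprime d := (Nat.Prime.coprime_iff_not_dvd hrp).mpr hrd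
      have e1 : ∑ n ∈ Icc (-(N:ℤ)) N,
          (if (d:ℤ) ∣ n then w N n * ((if (r:ℤ) ∣ n then 1 else 0) - 1 / (r:ℝ)) else 0) =
          Z N (r * d) - 1 / r * Z N d := by
        unfold Z
        rw [mul_sum, ← sum_sub_distrib]
        apply sum_congr rfl
        intro n _
        have hiff : (((r * d : ℕ) : ℤ) ∣ n) ↔ ((r:ℤ) ∣ n ∧ (d:ℤ) ∣ n) := by
          push_cast
          constructor
          · intro h
            exact ⟨dvd_trans (dvd_mul_right _ _) h, dvd_trans (dvd_mul_left _ _) h⟩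
          · rintro ⟨h, h'⟩
            exact IsCoprime.mul_dvd (Nat.isCoprime_iff_coprime.mpr hcop) h h'
        by_cases hdn : (d:ℤ) ∣ n
        · by_cases hrn : (r:ℤ) ∣ n
          · rw [if_pos hdn, if_pos hrn, if_pos (hiff.mpr ⟨hrn, hdn⟩), if_pos hdn]
            ring
          · rw [if_pos hdn, if_neg hrn, if_neg (fun h => hrn (hiff.mp h).1), if_pos hdn]
            ring
        · rw [if_neg hdn, if_neg (fun h => hdn (hiff.mp h).2), if_neg hdn]
          ring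
      rw [e1]
      have hrd1 : 1 ≤ r * d := Nat.mul_pos hrp.pos hd
      have h3 := Z_le N (r * d) hN hrd1
      have h4 := Z_ge N d hN hd
      have h5 : 1 / (r:ℝ) * ((N:ℝ) / d) ≤ 1 / r * Z N d := mul_le_mul_of_nonneg_left h4 (by positivity)
      have h6 : (N:ℝ) / ((r * d : ℕ) : ℝ) = 1 / (r:ℝ) * ((N:ℝ) / d) := by
        push_cast
        field_simp
      rw [h6] at h3
      linarith
  refine (sum_le_sum h2).trans (le_of_eq ?_)
  rw [sum_add_distrib, ← sum_filter, sum_const, sum_const, nsmul_eq_mul, nsmul_eq_mul, mul_one]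

end Pool.Agent.H408R2.EHLow
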